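import Pool.Agent.MPb62fd5.Defs

set_option autoImplicit false

open Matrix

namespace Pool.Agent.MPb62fd5

/-- An isotopy invariant form of the left Bol property. -/
def BolClosure (M : Type*) [Mul M] : Prop :=
  ∀ a b : M, ∃ c : M, ∀ y w : M, a * y = b * w → c * y = a * w

theorem BolClosure.of_isotopic {T M : Type*} [Mul T] [Mul M] (h : Isotopic T M)
    (hM : BolClosure M) : BolClosure T := by
  obtain ⟨α, β, γ, h⟩ := h
  intro a b
  obtain ⟨c, hc⟩ := hM (α a) (α b)
  refine ⟨α.symm c, fun y w hyw => ?_⟩
  apply γ.injective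
  rw [h, h, Equiv.apply_symm_apply]
  apply hc
  rw [← h, ← h, hyw]

theorem bolClosure_group (G : Type*) [Group G] : BolClosure G := by
  intro a b
  refine ⟨a * b⁻¹ * a, fun y w h => ?_⟩
  have : w = b⁻¹ * (a * y) := by rw [h]; group
  rw [this]; group

theorem bolClosure_of_moufang (M : Type*) [Mul M] (h : IsMoufangLoop M) : BolClosure M := by
  obtain ⟨hq, ⟨e, he⟩, hm⟩ := h
  intro a b
  obtain ⟨b', hb', -⟩ := (hq b e).1
  have hb' : b * b' = e := hb'
  refine ⟨(a * b') * a, fun y w h => ?_⟩
  have h1 : b' * (b * w) = w := by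
    have h2 : b * (b' * (b * w)) = b * w := by
      rw [← hm, hb', (he b).1]
    exact ((hq b (b * w)).1).unique h2 rfl
  rw [hm, h, h1]

namespace Zorn

variable {F : Type*} [CommRing F]

/-- octonion conjugation -/
def conj (x : Zorn F) : Zorn F := ⟨x.b, -x.u, -x.v, x.a⟩

theorem norm_conj (x : Zorn F) : norm (conj x) = norm x := by
  simp [norm, conj]; ring

theorem conj_mul_mul (x y : Zorn F) (hx : norm x = 1) : mul (conj x) (mul x y) = y := by
  have h : mul (conj x) (mul x y) = ⟨norm x * y.a, norm x • y.u, norm x • y.v, norm x * y.b⟩ := by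
    ext i
    · simp only [mul, conj, norm, dotProduct, Fin.sum_univ_three, cross_apply, Pi.add_apply,
        Pi.sub_apply, Pi.smul_apply, Pi.neg_apply, smul_eq_mul, Matrix.cons_val_zero,
        Matrix.cons_val_one, Matrix.cons_val]
      ring
    · fin_cases i <;> simp only [mul, conj, norm, dotProduct, Fin.sum_univ_three, cross_apply,
        Pi.add_apply, Pi.sub_apply, Pi.smul_apply, Pi.neg_apply, smul_eq_mul,
        Matrix.cons_val_zero, Matrix.cons_val_one, Matrix.cons_val] <;> simp <;> ring
    · fin_cases i <;> simp only [mul, conj, norm, dotProduct, Fin.sum_univ_three, cross_apply,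
        Pi.add_apply, Pi.sub_apply, Pi.smul_apply, Pi.neg_apply, smul_eq_mul,
        Matrix.cons_val_zero, Matrix.cons_val_one, Matrix.cons_val] <;> simp <;> ring
    · simp only [mul, conj, norm, dotProduct, Fin.sum_univ_three, cross_apply, Pi.add_apply,
        Pi.sub_apply, Pi.smul_apply, Pi.neg_apply, smul_eq_mul, Matrix.cons_val_zero,
        Matrix.cons_val_one, Matrix.cons_val]
      ring
  rw [h, hx]
  ext i <;> simp

theorem left_moufang (x y z : Zorn F) :
    mul (mul (mul x y) x) z = mul x (mul y (mul x z)) := by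
  ext i
  · simp only [mul, dotProduct, Fin.sum_univ_three, cross_apply, Pi.add_apply, Pi.sub_apply,
      Pi.smul_apply, smul_eq_mul, Matrix.cons_val_zero, Matrix.cons_val_one, Matrix.cons_val]
    ring
  · fin_cases i <;> simp only [mul, dotProduct, Fin.sum_univ_three, cross_apply, Pi.add_apply,
      Pi.sub_apply, Pi.smul_apply, smul_eq_mul, Matrix.cons_val_zero, Matrix.cons_val_one,
      Matrix.cons_val] <;> simp <;> ring
  · fin_cases i <;> simp only [mul, dotProduct, Fin.sum_univ_three, cross_apply, Pi.add_apply,
      Pi.sub_apply, Pi.smul_apply, smul_eq_mul, Matrix.cons_val_zero, Matrix.cons_val_one,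
      Matrix.cons_val] <;> simp <;> ring
  · simp only [mul, dotProduct, Fin.sum_univ_three, cross_apply, Pi.add_apply, Pi.sub_apply,
      Pi.smul_apply, smul_eq_mul, Matrix.cons_val_zero, Matrix.cons_val_one, Matrix.cons_val]
    ring

end Zorn

theorem bolClosure_paige (F : Type*) [Field F] : BolClosure (PaigeLoop F) := by
  intro a b
  induction a using Quotient.inductionOn with | _ a => ?_
  induction b using Quotient.inductionOn with | _ b => ?_
  let b' : NormOne F := ⟨Zorn.conj b.1, by rw [Zorn.norm_conj, b.2]⟩
  let q : NormOne F → PaigeLoop F := fun x => Quotient.mk (signSetoid F) x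
  refine ⟨(q a * q b') * q a, fun y w h => ?_⟩
  have h1 : q b' * (q b * w) = w := by
    induction w using Quotient.inductionOn with | _ w => ?_
    apply Quotient.sound
    exact Or.inl (Zorn.conj_mul_mul b.1 w.1 b.2)
  have h2 : ∀ x y z : PaigeLoop F, ((x * y) * x) * z = x * (y * (x * z)) := by
    intro x y z
    induction x using Quotient.inductionOn with | _ x => ?_
    induction y using Quotient.inductionOn with | _ y => ?_
    induction z using Quotient.inductionOn with | _ z => ?_
    apply Quotient.sound
    exact Or.inl (Zorn.left_moufang x.1 y.1 z.1)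
  change q a * y = q b * w at h
  change ((q a * q b') * q a) * y = q a * w
  rw [h2, h, h1]

end Pool.Agent.MPb62fd5
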