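import Mathlib

set_option autoImplicit false

open Matrix

namespace Pool.Agent.MPb62fd5

/-- `T` with its multiplication is a quasigroup: for all `a b` each of the equations
`a * x = b` and `y * a = b` has exactly one solution. -/
def IsQuasigroup (T : Type*) [Mul T] : Prop :=
  ∀ a b : T, (∃! x : T, a * x = b) ∧ (∃! y : T, y * a = b)

/-- `T` and `S` are isotopic: there are bijections `α β γ : T → S` with
`γ (x * y) = α x * β y`. -/
def Isotopic (T S : Type*) [Mul T] [Mul S] : Prop :=
  ∃ α β γ : T ≃ S, ∀ x y : T, γ (x * y) = α x * β y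

/-- The Latin square `L(T) ⊆ T³`: the set of cells `(x, y, x * y)`. Triples are functions
`Fin 3 → T`. -/
def cells (T : Type*) [Mul T] : Set (Fin 3 → T) := {v | v 2 = v 0 * v 1}

/-- The paratopism of `T³` given by bijections `α 0, α 1, α 2` of `T` and a permutation `σ` of
the three coordinates: apply `α i` to coordinate `i` and then permute the coordinates by `σ`
(the entry in position `i` moves to position `σ i`). -/
def paratopism {T : Type*} (α : Fin 3 → Equiv.Perm T) (σ : Equiv.Perm (Fin 3))
    (v : Fin 3 → T) : Fin 3 → T :=
  fun j => α (σ.symm j) (v (σ.symm j))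

/-- A self-map of `T³` is an autoparatopism of `T` if it is a paratopism and maps the Latin
square `L(T)` onto itself. -/
def IsAutoparatopism (T : Type*) [Mul T] (f : (Fin 3 → T) → (Fin 3 → T)) : Prop :=
  (∃ (α : Fin 3 → Equiv.Perm T) (σ : Equiv.Perm (Fin 3)), f = paratopism α σ) ∧
    f '' cells T = cells T

/-- The autoparatopism group of `T` is primitive on the set of cells `L(T)`: it is transitive
on `L(T)`, and the only partitions of `L(T)` (given as equivalence relations) which it
preserves are the partition into singletons (`⊥`) and the partition with one block (`⊤`). -/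
def HasPrimitiveAutoparatopismGroup (T : Type*) [Mul T] : Prop :=
  (∀ c ∈ cells T, ∀ d ∈ cells T, ∃ f, IsAutoparatopism T f ∧ f c = d) ∧
    ∀ r : Setoid (cells T),
      (∀ f, IsAutoparatopism T f → ∀ c d c' d' : cells T,
        (c' : Fin 3 → T) = f c → (d' : Fin 3 → T) = f d → r c d → r c' d') →
      r = ⊥ ∨ r = ⊤

/-- A Moufang loop: a quasigroup with an identity element satisfying the Moufang identity
`((x y) x) z = x (y (x z))`. -/
def IsMoufangLoop (M : Type*) [Mul M] : Prop :=
  IsQuasigroup M ∧ (∃ e : M, ∀ x : M, e * x = x ∧ x * e = x) ∧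
    ∀ x y z : M, ((x * y) * x) * z = x * (y * (x * z))

/-- Zorn's vector matrices `[[a, u], [v, b]]` over `F`, with `a b : F` and `u v : F³`. With the
product `Zorn.mul` and the norm form `Zorn.norm` below they are the split octonion algebra
over `F`. -/
@[ext]
structure Zorn (F : Type*) where
  /-- upper left entry -/
  a : F
  /-- upper right vector -/
  u : Fin 3 → F
  /-- lower left vector -/
  v : Fin 3 → F
  /-- lower right entry -/
  b : F

namespace Zorn

variable {F : Type*} [CommRing F]

/-- Zorn's product of vector matrices: `[[a, u], [v, b]] * [[a', u'], [v', b']]` is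
`[[a a' + u · v', a u' + b' u - v × v'], [a' v + b v' + u × u', b b' + v · u']]`. -/
def mul (x y : Zorn F) : Zorn F where
  a := x.a * y.a + x.u ⬝ᵥ y.v
  u := x.a • y.u + y.b • x.u - x.v ⨯₃ y.v
  v := y.a • x.v + x.b • y.v + x.u ⨯₃ y.u
  b := x.b * y.b + x.v ⬝ᵥ y.u

/-- The octonion norm `a b - u · v`. -/
def norm (x : Zorn F) : F := x.a * x.b - x.u ⬝ᵥ x.v

/-- The negative of a vector matrix. -/
def neg (x : Zorn F) : Zorn F := ⟨-x.a, -x.u, -x.v, -x.b⟩

theorem norm_mul (x y : Zorn F) : norm (mul x y) = norm x * norm y := by
  simp only [norm, mul, dotProduct, Fin.sum_univ_three, cross_apply, Pi.add_apply, Pi.sub_apply,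
    Pi.smul_apply, smul_eq_mul, Matrix.cons_val_zero, Matrix.cons_val_one, Matrix.cons_val]
  ring

theorem norm_neg (x : Zorn F) : norm (neg x) = norm x := by
  simp [norm, neg]

theorem neg_mul (x y : Zorn F) : mul (neg x) y = neg (mul x y) := by
  ext i
  · simp [mul, neg]; ring
  · fin_cases i <;> simp [mul, neg, cross_apply] <;> ring
  · fin_cases i <;> simp [mul, neg, cross_apply] <;> ring
  · simp [mul, neg]; ring

theorem mul_neg (x y : Zorn F) : mul x (neg y) = neg (mul x y) := by
  ext i
  · simp [mul, neg]; ring
  · fin_cases i <;> simp [mul, neg, cross_apply] <;> ring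
  · fin_cases i <;> simp [mul, neg, cross_apply] <;> ring
  · simp [mul, neg]; ring

theorem neg_neg (x : Zorn F) : neg (neg x) = x := by
  ext i <;> simp [neg]

end Zorn

/-- The elements of norm one of the split octonion algebra over `F`. -/
abbrev NormOne (F : Type*) [Field F] : Type _ := {x : Zorn F // Zorn.norm x = 1}

/-- Equality up to sign on the elements of norm one. -/
def signSetoid (F : Type*) [Field F] : Setoid (NormOne F) where
  r x y := x.1 = y.1 ∨ x.1 = Zorn.neg y.1
  iseqv :=
    { refl := fun _ => Or.inl rfl
      symm := by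
        rintro x y (h | h)
        · exact Or.inl h.symm
        · exact Or.inr (by rw [h, Zorn.neg_neg])
      trans := by
        rintro x y z (h | h) (h' | h')
        · exact Or.inl (h.trans h')
        · exact Or.inr (h.trans h')
        · exact Or.inr (by rw [h, h'])
        · exact Or.inl (by rw [h, h', Zorn.neg_neg]) }

/-- The loop `M*(F)`: the elements of norm one of the split octonion algebra over `F`, modulo
`{1, -1}`. For a finite field `F` this is the Paige loop over `F`. -/
def PaigeLoop (F : Type*) [Field F] : Type _ := Quotient (signSetoid F)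

/-- The product of `M*(F)`, induced by the product of octonions. -/
instance (F : Type*) [Field F] : Mul (PaigeLoop F) where
  mul := Quotient.map₂ (fun x y => ⟨Zorn.mul x.1 y.1, by rw [Zorn.norm_mul, x.2, y.2, one_mul]⟩)
    (by
      rintro x x' (h | h) y y' (h' | h')
      · exact Or.inl (by simp [h, h'])
      · exact Or.inr (by simp [h, h', Zorn.mul_neg])
      · exact Or.inr (by simp [h, h', Zorn.neg_mul])
      · exact Or.inl (by simp [h, h', Zorn.mul_neg, Zorn.neg_mul, Zorn.neg_neg]))

end Pool.Agent.MPb62fd5
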