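import Pool.Agent.MPb62fd5.FiniteT

set_option autoImplicit false
set_option linter.unusedVariables false
set_option linter.unusedSectionVars false

open Matrix

namespace Pool.Agent.MPb62fd5

/-! ### the order of the square -/

/-- bits -/
def O8.equiv : O8 ≃ Bool × Bool × Bool × Bool × Bool × Bool × Bool × Bool where
  toFun x := (x.a, x.u1, x.u2, x.u3, x.v1, x.v2, x.v3, x.b)
  invFun t := ⟨t.1, t.2.1, t.2.2.1, t.2.2.2.1, t.2.2.2.2.1, t.2.2.2.2.2.1, t.2.2.2.2.2.2.1,
    t.2.2.2.2.2.2.2⟩
  left_inv _ := rfl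
  right_inv _ := rfl

theorem card_U : Nat.card U = 120 := by
  have e : U ≃ {t : Bool × Bool × Bool × Bool × Bool × Bool × Bool × Bool //
      O8.norm (O8.equiv.symm t) = true} :=
    O8.equiv.subtypeEquiv (fun x => by rw [Equiv.symm_apply_apply])
  rw [Nat.card_congr e, Nat.card_eq_fintype_card]
  decide +kernel

theorem card_T2 : Nat.card T2 = 14400 := by
  rw [Nat.card_prod, card_U]

/-! ### the orders of the Paige loops -/

section

variable (F : Type*) [Field F] [Finite F]

/-- Zorn vector matrices as quadruples. -/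
def zornEquiv : Zorn F ≃ F × (Fin 3 → F) × (Fin 3 → F) × F where
  toFun x := (x.a, x.u, x.v, x.b)
  invFun t := ⟨t.1, t.2.1, t.2.2.1, t.2.2.2⟩
  left_inv _ := rfl
  right_inv _ := rfl

instance : Finite (Zorn F) := Finite.of_equiv _ (zornEquiv F).symm

instance : Finite (PaigeLoop F) := Quotient.finite _

theorem card_zorn : Nat.card (Zorn F) = Nat.card F ^ 8 := by
  rw [Nat.card_congr (zornEquiv F)]
  simp only [Nat.card_prod, Nat.card_fun, Nat.card_eq_fintype_card (α := Fin 3),
    Fintype.card_fin]
  ring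

theorem card_paige_le : Nat.card (PaigeLoop F) ≤ Nat.card F ^ 8 := by
  rw [← card_zorn]
  have h1 : Nat.card (PaigeLoop F) ≤ Nat.card (NormOne F) :=
    Nat.card_le_card_of_surjective (Quotient.mk (signSetoid F)) Quotient.mk_surjective
  have h2 : Nat.card (NormOne F) ≤ Nat.card (Zorn F) :=
    Nat.card_le_card_of_injective _ Subtype.val_injective
  exact h1.trans h2

/-- The two families of elements of norm one. -/
noncomputable def fam : (Fˣ × (Fin 3 → F) × (Fin 3 → F)) ⊕ (Fˣ × F × F × F × F × F) → NormOne F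
  | .inl (a, u, v) => ⟨⟨a, u, v, (a : F)⁻¹ * (1 + u ⬝ᵥ v)⟩, by
      have ha : (a : F) ≠ 0 := a.ne_zero
      simp only [Zorn.norm]
      field_simp
      ring⟩
  | .inr (u1, u2, u3, v2, v3, b) =>
    ⟨⟨0, ![(u1 : F), u2, u3], ![-(u1 : F)⁻¹ * (1 + u2 * v2 + u3 * v3), v2, v3], b⟩, by
      have hu : (u1 : F) ≠ 0 := u1.ne_zero
      simp only [Zorn.norm, dotProduct, Fin.sum_univ_three, Matrix.cons_val_zero,
        Matrix.cons_val_one, Matrix.cons_val]
      field_simp
      ring⟩

theorem fam_injective : Function.Injective (fam F) := by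
  rintro (⟨a, u, v⟩ | ⟨u1, u2, u3, v2, v3, b⟩) (⟨a', u', v'⟩ | ⟨u1', u2', u3', v2', v3', b'⟩) h
  · have h1 := congrArg Subtype.val h
    simp only [fam, Zorn.mk.injEq] at h1
    obtain ⟨h1, rfl, rfl, _⟩ := h1
    rw [Units.ext h1]
  · exfalso
    have h1 := congrArg Subtype.val h
    simp only [fam, Zorn.mk.injEq] at h1
    exact a.ne_zero h1.1
  · exfalso
    have h1 := congrArg Subtype.val h
    simp only [fam, Zorn.mk.injEq] at h1
    exact a'.ne_zero h1.1.symm
  · have h1 := congrArg Subtype.val h
    simp only [fam, Zorn.mk.injEq] at h1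
    obtain ⟨_, h2, h3, rfl⟩ := h1
    have e1 : (u1 : F) = u1' := congrFun h2 0
    have e2 : u2 = u2' := congrFun h2 1
    have e3 : u3 = u3' := congrFun h2 2
    have e4 : v2 = v2' := congrFun h3 1
    have e5 : v3 = v3' := congrFun h3 2
    rw [Units.ext e1, e2, e3, e4, e5]

theorem card_units : Nat.card Fˣ = Nat.card F - 1 := by
  have := Fintype.ofFinite F
  classical
  rw [Nat.card_eq_fintype_card, Nat.card_eq_fintype_card, Fintype.card_units]

theorem card_normOne_ge :
    (Nat.card F - 1) * Nat.card F ^ 6 + (Nat.card F - 1) * Nat.card F ^ 5 ≤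
      Nat.card (NormOne F) := by
  have h := Nat.card_le_card_of_injective _ (fam_injective F)
  rw [Nat.card_sum] at h
  simp only [Nat.card_prod, Nat.card_fun, Nat.card_eq_fintype_card (α := Fin 3),
    Fintype.card_fin, card_units] at h
  refine le_trans (le_of_eq ?_) h
  ring

theorem card_normOne_le : Nat.card (NormOne F) ≤ 2 * Nat.card (PaigeLoop F) := by
  classical
  have := Fintype.ofFinite (NormOne F)
  have := Fintype.ofFinite (PaigeLoop F)
  rw [Nat.card_eq_fintype_card, Nat.card_eq_fintype_card]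
  let f : NormOne F → PaigeLoop F := fun x => Quotient.mk (signSetoid F) x
  have h := Finset.card_le_mul_card_image (f := f) (Finset.univ : Finset (NormOne F)) 2 ?_
  · exact h.trans (Nat.mul_le_mul_left 2 (Finset.card_le_univ _))
  · intro q hq
    obtain ⟨x, _, rfl⟩ := Finset.mem_image.1 hq
    have hn : Zorn.norm (Zorn.neg x.1) = 1 := by rw [Zorn.norm_neg, x.2]
    refine (Finset.card_le_card (t := {x, ⟨Zorn.neg x.1, hn⟩}) ?_).trans Finset.card_le_two
    intro y hy
    have hy' := (Finset.mem_filter.1 hy).2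
    have hy2 := Quotient.exact hy'
    rw [Finset.mem_insert, Finset.mem_singleton]
    rcases hy2 with h | h
    · exact Or.inl (Subtype.ext h)
    · exact Or.inr (Subtype.ext h)

theorem card_paige_four (hF : Nat.card F = 4) : 15360 ≤ Nat.card (PaigeLoop F) := by
  have h2 : (2 : F) = 0 := by
    have := Fintype.ofFinite F
    have h4 : ((Nat.card F : ℕ) : F) = 0 := by
      rw [Nat.card_eq_fintype_card]; exact FiniteField.cast_card_eq_zero F
    rw [hF] at h4
    have h5 : (2 : F) * 2 = 0 := by rw [← h4]; norm_num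
    simpa using h5
  have hneg : ∀ x : F, -x = x := by
    intro x
    have : x + x = 0 := by rw [← two_mul, h2, zero_mul]
    exact neg_eq_of_add_eq_zero_left this
  have hz : ∀ x : Zorn F, Zorn.neg x = x := by
    intro x
    ext i <;> simp [Zorn.neg, hneg]
  have hinj : Function.Injective (fun x : NormOne F =>
      (Quotient.mk (signSetoid F) x : PaigeLoop F)) := by
    intro x y h
    rcases Quotient.exact h with h | h
    · exact Subtype.ext h
    · rw [hz] at h
      exact Subtype.ext h
  have h3 := card_normOne_ge F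
  rw [hF] at h3
  exact le_trans (by norm_num at h3 ⊢; exact h3) (Nat.card_le_card_of_injective _ hinj)

theorem card_paige_ne : Nat.card (PaigeLoop F) ≠ 14400 := by
  rcases Nat.lt_or_ge (Nat.card F) 4 with h | h
  · have h1 := card_paige_le F
    have h2 : Nat.card F ^ 8 ≤ 3 ^ 8 := Nat.pow_le_pow_left (by omega) 8
    norm_num at h2
    omega
  · rcases Nat.eq_or_lt_of_le h with h | h
    · have := card_paige_four F h.symm
      omega
    · have h1 := card_normOne_ge F
      have h2 := card_normOne_le F
      have h3 : 5 ^ 6 ≤ Nat.card F ^ 6 := Nat.pow_le_pow_left (by omega) 6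
      have h4 : 4 * 5 ^ 6 ≤ (Nat.card F - 1) * Nat.card F ^ 6 :=
        Nat.mul_le_mul (by omega) h3
      norm_num at h4
      intro h5
      rw [h5] at h2
      have h6 : (Nat.card F - 1) * Nat.card F ^ 6 ≤ 28800 := by
        calc (Nat.card F - 1) * Nat.card F ^ 6 ≤
              (Nat.card F - 1) * Nat.card F ^ 6 + (Nat.card F - 1) * Nat.card F ^ 5 :=
                Nat.le_add_right _ _
          _ ≤ 28800 := by omega
      omega

end

end Pool.Agent.MPb62fd5
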