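import Pool.Agent.MPb62fd5.FiniteU

set_option autoImplicit false
set_option linter.unusedVariables false

namespace Pool.Agent.MPb62fd5

/-- The direct square of the loop `M*(2)`. -/
abbrev T2 : Type := U × U

theorem mloopT : MLoop T2 where
  one_mul x := Prod.ext (U.mloop.one_mul _) (U.mloop.one_mul _)
  mul_one x := Prod.ext (U.mloop.mul_one _) (U.mloop.mul_one _)
  lip x y := Prod.ext (U.mloop.lip _ _) (U.mloop.lip _ _)
  rip x y := Prod.ext (U.mloop.rip _ _) (U.mloop.rip _ _)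
  inv_inv x := Prod.ext (U.mloop.inv_inv _) (U.mloop.inv_inv _)
  inv_one := Prod.ext U.mloop.inv_one U.mloop.inv_one
  middle x y z := Prod.ext (U.mloop.middle _ _ _) (U.mloop.middle _ _ _)
  left x y z := Prod.ext (U.mloop.left _ _ _) (U.mloop.left _ _ _)
  right x y z := Prod.ext (U.mloop.right _ _ _) (U.mloop.right _ _ _)
  flex x y := Prod.ext (U.mloop.flex _ _) (U.mloop.flex _ _)
  ralt x y := Prod.ext (U.mloop.ralt _ _) (U.mloop.ralt _ _)
  iflex x y := Prod.ext (U.mloop.iflex _ _) (U.mloop.iflex _ _)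

/-- embedding of cells in the first coordinate -/
def e1 (c d : U × U) : T2 × T2 := ((c.1, d.1), (c.2, d.2))

theorem e1_step1 (b : Bool) (u : U) (c d : U × U) :
    step (b, ((u, 1) : T2)) (e1 c d) = e1 (step (b, u) c) d := by
  cases b
  · simp [step, e1, U.mloop.one_mul, U.mloop.mul_one]
  · simp [step, e1, U.mloop.one_mul, U.mloop.mul_one, U.mloop.inv_one]

theorem e1_step2 (b : Bool) (u : U) (c d : U × U) :
    step (b, ((1, u) : T2)) (e1 c d) = e1 c (step (b, u) d) := by
  cases b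
  · simp [step, e1, U.mloop.one_mul, U.mloop.mul_one]
  · simp [step, e1, U.mloop.one_mul, U.mloop.mul_one, U.mloop.inv_one]

theorem e1_app1 (l : List (Bool × U)) : ∀ c d : U × U,
    app (l.map fun s => (s.1, ((s.2, 1) : T2))) (e1 c d) = e1 (app l c) d := by
  induction l with
  | nil => exact fun c d => rfl
  | cons s l ih =>
    intro c d
    have h1 : app ((s :: l).map fun s => (s.1, ((s.2, 1) : T2))) (e1 c d) =
      app (l.map fun s => (s.1, ((s.2, 1) : T2))) (step (s.1, ((s.2, 1) : T2)) (e1 c d)) := rfl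
    rw [h1, e1_step1, ih]
    rfl

theorem e1_app2 (l : List (Bool × U)) : ∀ c d : U × U,
    app (l.map fun s => (s.1, ((1, s.2) : T2))) (e1 c d) = e1 c (app l d) := by
  induction l with
  | nil => exact fun c d => rfl
  | cons s l ih =>
    intro c d
    have h1 : app ((s :: l).map fun s => (s.1, ((1, s.2) : T2))) (e1 c d) =
      app (l.map fun s => (s.1, ((1, s.2) : T2))) (step (s.1, ((1, s.2) : T2)) (e1 c d)) := rfl
    rw [h1, e1_step2, ih]
    rfl

/-- exchanging the two factors -/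
def swp (c : T2 × T2) : T2 × T2 := (c.1.swap, c.2.swap)

theorem exists_e1 (c : T2 × T2) : ∃ a b, c = e1 a b := ⟨(c.1.1, c.2.1), (c.1.2, c.2.2), rfl⟩

theorem swp_e1 (a b : U × U) : swp (e1 a b) = e1 b a := rfl

theorem exists_move (x : U) (hx : x ≠ 1) : ∃ w, U.I3 w ∧ U.cj w x ≠ x := by
  have h := O8.allO_spec O8.fact7 x.1
  have hx' : O8.eqb x.1 O8.one = false := by
    rw [Bool.eq_false_iff, Ne, O8.eqb_iff]
    exact fun e => hx (U.ext e)
  simp only [x.2, hx', Bool.not_true, Bool.false_or, List.any_eq_true, O8.force_eq] at h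
  obtain ⟨w, hw, h⟩ := h
  have hw3 : O8.is3 w = true := (List.all_eq_true.1 O8.W_is3) w hw
  have hwn : O8.norm w = true := by
    have := hw3
    unfold O8.is3 at this
    simp only [Bool.and_eq_true] at this
    exact this.1.1
  refine ⟨⟨w, hwn⟩, hw3, fun e => ?_⟩
  have h2 : O8.eqb (O8.cj w x.1) x.1 = true := (O8.eqb_iff _ _).2 (congrArg Subtype.val e)
  rw [h2] at h
  exact absurd h (by decide)

theorem primT {R : T2 × T2 → T2 × T2 → Prop} (hR : Adm R)
    (hsw : ∀ c d, R c d → R (swp c) (swp d)) {c d : T2 × T2} (hcd : c ≠ d) (h : R c d) :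
    ∀ c d, R c d := by
  -- reduce to the case where the first coordinates differ
  have main : ∀ a b a' b' : U × U, a ≠ a' → R (e1 a b) (e1 a' b') → ∀ c d, R c d := by
    intro a b a' b' hne h
    obtain ⟨l, hl⟩ := U.trans_cell a'
    have h1 := hR.app (l.map fun s => (s.1, ((s.2, 1) : T2))) _ _ h
    rw [e1_app1, e1_app1, hl] at h1
    have hp : app l a ≠ (1, 1) := by
      intro e
      rw [← hl] at e
      exact hne (app_injective U.mloop l e)
    generalize app l a = p at h1 hp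
    obtain ⟨w, hw, hwp⟩ : ∃ w, U.I3 w ∧ (U.cj w p.1, U.cj w p.2) ≠ p := by
      by_cases hp1 : p.1 = 1
      · have hp2 : p.2 ≠ 1 := fun e => hp (Prod.ext hp1 e)
        obtain ⟨w, hw, h⟩ := exists_move p.2 hp2
        exact ⟨w, hw, fun e => h (congrArg Prod.snd e)⟩
      · obtain ⟨w, hw, h⟩ := exists_move p.1 hp1
        exact ⟨w, hw, fun e => h (congrArg Prod.fst e)⟩
    have h2 := hR.app ((U.cjl w).map fun s => (s.1, ((s.2, 1) : T2))) _ _ h1
    rw [e1_app1, e1_app1, U.app_cjl hw, U.app_cjl hw] at h2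
    simp only [U.cj_one] at h2
    have h3 := hR.trans _ _ _ h2 (hR.symm _ _ h1)
    obtain ⟨l2, hl2⟩ := U.trans_cell b
    have h4 := hR.app (l2.map fun s => (s.1, ((1, s.2) : T2))) _ _ h3
    rw [e1_app2, e1_app2, hl2] at h4
    set R1 : U × U → U × U → Prop := fun c d => R (e1 c (1, 1)) (e1 d (1, 1)) with hR1
    have hAdm : Adm R1 := by
      refine ⟨fun c => hR.refl _, fun c d => hR.symm _ _, fun c d e => hR.trans _ _ _, ?_, ?_, ?_⟩
      · rintro ⟨b, u⟩ c d h
        have := hR.step (b, ((u, 1) : T2)) _ _ h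
        rwa [e1_step1, e1_step1] at this
      · intro c d h
        have := hR.s1 _ _ h
        have e : ∀ c : U × U, ((e1 c (1, 1)).1⁻¹, (e1 c (1, 1)).1 * (e1 c (1, 1)).2) =
            e1 (c.1⁻¹, c.1 * c.2) (1, 1) := by
          intro c
          simp [e1, U.mloop.inv_one, U.mloop.mul_one]
        rwa [e, e] at this
      · intro c d h
        have := hR.s2 _ _ h
        have e : ∀ c : U × U, ((e1 c (1, 1)).1 * (e1 c (1, 1)).2, (e1 c (1, 1)).2⁻¹) =
            e1 (c.1 * c.2, c.2⁻¹) (1, 1) := by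
          intro c
          simp [e1, U.mloop.inv_one, U.mloop.mul_one]
        rwa [e, e] at this
    have hall : ∀ c d, R1 c d := U.prim hAdm hwp h4
    have key : ∀ c d : U × U, R (e1 c d) (e1 (1, 1) (1, 1)) := by
      intro c d
      obtain ⟨l, hl⟩ := U.trans_cell d
      have h5 : R (e1 c d) (e1 (1, 1) d) := by
        apply hR.back mloopT (l.map fun s => (s.1, ((1, s.2) : T2)))
        rw [e1_app2, e1_app2, hl]
        exact hall c (1, 1)
      have h6 : R (e1 (1, 1) d) (e1 (1, 1) (1, 1)) := hsw _ _ (hall d (1, 1))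
      exact hR.trans _ _ _ h5 h6
    intro c d
    obtain ⟨a, b, rfl⟩ := exists_e1 c
    obtain ⟨a', b', rfl⟩ := exists_e1 d
    exact hR.trans _ _ _ (key a b) (hR.symm _ _ (key a' b'))
  obtain ⟨a, b, rfl⟩ := exists_e1 c
  obtain ⟨a', b', rfl⟩ := exists_e1 d
  by_cases ha : a = a'
  · have hb : b ≠ b' := by
      rintro rfl
      exact hcd (by rw [ha])
    exact main b a b' a' hb (hsw _ _ h)
  · exact main a b a' b' ha h

theorem trans_cellT (c : T2 × T2) : ∃ l, app l c = (1, 1) := by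
  obtain ⟨a, b, rfl⟩ := exists_e1 c
  obtain ⟨l, hl⟩ := U.trans_cell a
  obtain ⟨l', hl'⟩ := U.trans_cell b
  refine ⟨(l.map fun s => (s.1, ((s.2, 1) : T2))) ++ (l'.map fun s => (s.1, ((1, s.2) : T2))), ?_⟩
  have : app ((l.map fun s => (s.1, ((s.2, 1) : T2))) ++ (l'.map fun s => (s.1, ((1, s.2) : T2))))
      (e1 a b) = app (l'.map fun s => (s.1, ((1, s.2) : T2)))
        (app (l.map fun s => (s.1, ((s.2, 1) : T2))) (e1 a b)) := by
    simp [app, List.foldl_append]
  rw [this, e1_app1, e1_app2, hl, hl']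
  rfl

/-! ### autoparatopisms -/

theorem paratopism_injective {T : Type*} (α : Fin 3 → Equiv.Perm T) (σ : Equiv.Perm (Fin 3)) :
    Function.Injective (paratopism α σ) := by
  intro v w h
  funext i
  have := congrFun h (σ i)
  simpa [paratopism] using this

theorem paratopism_comp {T : Type*} (α β : Fin 3 → Equiv.Perm T) (σ τ : Equiv.Perm (Fin 3)) :
    paratopism α σ ∘ paratopism β τ = paratopism (fun i => α (τ i) * β i) (σ * τ) := by
  funext v j
  simp [paratopism, Equiv.Perm.mul_def]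

theorem IsAutoparatopism.comp {T : Type*} [Mul T] {f g : (Fin 3 → T) → (Fin 3 → T)}
    (hf : IsAutoparatopism T f) (hg : IsAutoparatopism T g) : IsAutoparatopism T (f ∘ g) := by
  obtain ⟨⟨α, σ, rfl⟩, h1⟩ := hf
  obtain ⟨⟨β, τ, rfl⟩, h2⟩ := hg
  exact ⟨⟨_, _, paratopism_comp α β σ τ⟩, by rw [Set.image_comp, h2, h1]⟩

theorem IsAutoparatopism.exists_inv {T : Type*} [Mul T] {f : (Fin 3 → T) → (Fin 3 → T)}
    (hf : IsAutoparatopism T f) : ∃ g, IsAutoparatopism T g ∧ ∀ v, g (f v) = v := by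
  obtain ⟨⟨α, σ, rfl⟩, h1⟩ := hf
  have h2 : ∀ v, paratopism (fun i => (α (σ.symm i))⁻¹) σ⁻¹ (paratopism α σ v) = v := by
    intro v
    funext j
    have e : (Equiv.symm σ⁻¹) j = σ j := rfl
    simp [paratopism, e]
  refine ⟨paratopism (fun i => (α (σ.symm i))⁻¹) σ⁻¹, ⟨⟨_, _, rfl⟩, ?_⟩, h2⟩
  conv_lhs => rw [← h1]
  rw [← Set.image_comp]
  have : paratopism (fun i => (α (σ.symm i))⁻¹) σ⁻¹ ∘ paratopism α σ = id := by
    funext v; exact h2 v
  rw [this, Set.image_id]

theorem isAutoparatopism_of {T : Type*} [Mul T] [Finite T] (α : Fin 3 → Equiv.Perm T)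
    (σ : Equiv.Perm (Fin 3)) (h : ∀ v ∈ cells T, paratopism α σ v ∈ cells T) :
    IsAutoparatopism T (paratopism α σ) := by
  refine ⟨⟨α, σ, rfl⟩, ?_⟩
  apply Set.eq_of_subset_of_ncard_le
  · rintro _ ⟨v, hv, rfl⟩
    exact h v hv
  · rw [Set.ncard_image_of_injective _ (paratopism_injective α σ)]
  · exact Set.toFinite _

section

variable {M : Type} [Mul M] [One M] [Inv M]

/-- left translation -/
def Lp (h : MLoop M) (u : M) : Equiv.Perm M :=
  ⟨fun x => u * x, fun x => u⁻¹ * x, fun x => h.lip u x, fun x => h.lip' u x⟩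

/-- right translation -/
def Rp (h : MLoop M) (u : M) : Equiv.Perm M :=
  ⟨fun x => x * u, fun x => x * u⁻¹, fun x => h.rip u x, fun x => h.rip' u x⟩

/-- inversion -/
def Ip (h : MLoop M) : Equiv.Perm M := ⟨fun x => x⁻¹, fun x => x⁻¹, h.inv_inv, h.inv_inv⟩

/-- the cell of a pair -/
def cv (c : M × M) : Fin 3 → M := ![c.1, c.2, c.1 * c.2]

omit [One M] [Inv M] in
theorem cv_mem (c : M × M) : cv c ∈ cells M := rfl

omit [One M] [Inv M] in
theorem exists_cv {v : Fin 3 → M} (hv : v ∈ cells M) : ∃ c, v = cv c := by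
  refine ⟨(v 0, v 1), ?_⟩
  funext i
  fin_cases i
  · rfl
  · rfl
  · exact hv

theorem step_auto [Finite M] (h : MLoop M) (s : Bool × M) :
    ∃ f, IsAutoparatopism M f ∧ ∀ c, f (cv c) = cv (step s c) := by
  obtain ⟨b, u⟩ := s
  cases b
  · have hf : ∀ v, paratopism ![Lp h u, Rp h u, (Lp h u).trans (Rp h u)] (Equiv.refl _) v =
        ![u * v 0, v 1 * u, (u * v 2) * u] := by
      intro v; funext i; fin_cases i <;> rfl
    refine ⟨_, isAutoparatopism_of ![Lp h u, Rp h u, (Lp h u).trans (Rp h u)]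
      (Equiv.refl _) ?_, ?_⟩
    · intro v hv
      rw [hf]
      change (u * v 2) * u = (u * v 0) * (v 1 * u)
      rw [h.middle, show v 2 = v 0 * v 1 from hv]
    · intro c
      rw [hf]
      funext i
      fin_cases i
      · rfl
      · rfl
      · exact (h.middle u c.1 c.2).symm
  · have hf : ∀ v, paratopism ![Rp h u⁻¹, (Lp h u).trans (Rp h u), Rp h u] (Equiv.refl _) v =
        ![v 0 * u⁻¹, (u * v 1) * u, v 2 * u] := by
      intro v; funext i; fin_cases i <;> rfl
    have key : ∀ x y : M, (x * u⁻¹) * ((u * y) * u) = (x * y) * u := by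
      intro x y
      rw [← h.right, h.rip']
    refine ⟨_, isAutoparatopism_of ![Rp h u⁻¹, (Lp h u).trans (Rp h u), Rp h u]
      (Equiv.refl _) ?_, ?_⟩
    · intro v hv
      rw [hf]
      change v 2 * u = (v 0 * u⁻¹) * ((u * v 1) * u)
      rw [key, show v 2 = v 0 * v 1 from hv]
    · intro c
      rw [hf]
      funext i
      fin_cases i
      · rfl
      · rfl
      · exact (key c.1 c.2).symm

theorem s1_auto [Finite M] (h : MLoop M) :
    ∃ f, IsAutoparatopism M f ∧ ∀ c : M × M, f (cv c) = cv (c.1⁻¹, c.1 * c.2) := by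
  have hf : ∀ v, paratopism ![Ip h, Equiv.refl M, Equiv.refl M] (Equiv.swap 1 2) v =
      ![(v 0)⁻¹, v 2, v 1] := by
    intro v; funext i; fin_cases i <;> rfl
  refine ⟨_, isAutoparatopism_of ![Ip h, Equiv.refl M, Equiv.refl M] (Equiv.swap 1 2) ?_, ?_⟩
  · intro v hv
    rw [hf]
    change v 1 = (v 0)⁻¹ * v 2
    rw [show v 2 = v 0 * v 1 from hv, h.lip]
  · intro c
    rw [hf]
    funext i
    fin_cases i
    · rfl
    · rfl
    · exact (h.lip c.1 c.2).symm

theorem s2_auto [Finite M] (h : MLoop M) :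
    ∃ f, IsAutoparatopism M f ∧ ∀ c : M × M, f (cv c) = cv (c.1 * c.2, c.2⁻¹) := by
  have hf : ∀ v, paratopism ![Equiv.refl M, Ip h, Equiv.refl M] (Equiv.swap 0 2) v =
      ![v 2, (v 1)⁻¹, v 0] := by
    intro v; funext i; fin_cases i <;> rfl
  refine ⟨_, isAutoparatopism_of ![Equiv.refl M, Ip h, Equiv.refl M] (Equiv.swap 0 2) ?_, ?_⟩
  · intro v hv
    rw [hf]
    change v 0 = v 2 * (v 1)⁻¹
    rw [show v 2 = v 0 * v 1 from hv, h.rip]
  · intro c
    rw [hf]
    funext i
    fin_cases i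
    · rfl
    · rfl
    · exact (h.rip c.2 c.1).symm

theorem app_auto [Finite M] (h : MLoop M) (l : List (Bool × M)) :
    ∃ f, IsAutoparatopism M f ∧ ∀ c, f (cv c) = cv (app l c) := by
  induction l with
  | nil =>
    refine ⟨id, ⟨⟨fun _ => Equiv.refl _, Equiv.refl _, ?_⟩, by simp⟩, fun _ => rfl⟩
    funext v j
    simp [paratopism]
  | cons s l ih =>
    obtain ⟨f, hf, hf'⟩ := ih
    obtain ⟨g, hg, hg'⟩ := step_auto h s
    refine ⟨f ∘ g, hf.comp hg, fun c => ?_⟩
    simp only [Function.comp_apply, hg', hf']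
    rfl

theorem quasigroup_of (h : MLoop M) : IsQuasigroup M := by
  intro a b
  constructor
  · exact ⟨a⁻¹ * b, h.lip' a b, fun y hy => by simp only at hy; rw [← hy, h.lip]⟩
  · exact ⟨b * a⁻¹, h.rip' a b, fun y hy => by simp only at hy; rw [← hy, h.rip]⟩

omit [Inv M] in
theorem assoc_of_group {G : Type*} [Group G] (h1 : ∀ x : M, 1 * x = x) (h2 : ∀ x : M, x * 1 = x)
    (h : Isotopic M G) (x y z : M) : (x * y) * z = x * (y * z) := by
  obtain ⟨α, β, γ, h⟩ := h
  have ha : ∀ x, α x = γ x * (β 1)⁻¹ := by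
    intro x
    have := h x 1
    rw [h2] at this
    rw [this]; group
  have hb : ∀ y, β y = (α 1)⁻¹ * γ y := by
    intro y
    have := h 1 y
    rw [h1] at this
    rw [this]; group
  have hg : ∀ x y, γ (x * y) = γ x * (β 1)⁻¹ * ((α 1)⁻¹ * γ y) := by
    intro x y
    rw [h, ha x, hb y]
  apply γ.injective
  rw [hg, hg, hg, hg]
  group

end

theorem swp_auto : ∃ f, IsAutoparatopism T2 f ∧ ∀ c : T2 × T2, f (cv c) = cv (swp c) := by
  have hf : ∀ v : Fin 3 → T2,
      paratopism (fun _ => Equiv.prodComm U U) (Equiv.refl (Fin 3)) v =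
      fun i => (v i).swap := by
    intro v; funext i; rfl
  have hfin : Finite T2 := by
    have : Finite O8 := Finite.of_injective
      (fun x : O8 => (x.a, x.u1, x.u2, x.u3, x.v1, x.v2, x.v3, x.b)) (by
        intro x y h
        simp only [Prod.mk.injEq] at h
        obtain ⟨h1, h2, h3, h4, h5, h6, h7, h8⟩ := h
        exact O8.ext h1 h2 h3 h4 h5 h6 h7 h8)
    infer_instance
  refine ⟨_, isAutoparatopism_of (fun _ => Equiv.prodComm U U) (Equiv.refl (Fin 3)) ?_, ?_⟩
  · intro v hv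
    rw [hf]
    have hv' : v 2 = v 0 * v 1 := hv
    change (v 2).swap = (v 0).swap * (v 1).swap
    rw [hv']; rfl
  · intro c
    rw [hf]
    funext i
    fin_cases i <;> rfl

instance : Finite O8 := Finite.of_injective
  (fun x : O8 => (x.a, x.u1, x.u2, x.u3, x.v1, x.v2, x.v3, x.b)) (by
    intro x y h
    simp only [Prod.mk.injEq] at h
    obtain ⟨h1, h2, h3, h4, h5, h6, h7, h8⟩ := h
    exact O8.ext h1 h2 h3 h4 h5 h6 h7 h8)

theorem primitiveT : HasPrimitiveAutoparatopismGroup T2 := by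
  constructor
  · intro c hc d hd
    obtain ⟨c, rfl⟩ := exists_cv hc
    obtain ⟨d, rfl⟩ := exists_cv hd
    obtain ⟨l, hl⟩ := trans_cellT c
    obtain ⟨l', hl'⟩ := trans_cellT d
    obtain ⟨f, hf, hf'⟩ := app_auto mloopT l
    obtain ⟨g, hg, hg'⟩ := app_auto mloopT l'
    obtain ⟨g', hgi, hgi'⟩ := hg.exists_inv
    refine ⟨g' ∘ f, hgi.comp hf, ?_⟩
    have h1 : f (cv c) = g (cv d) := by rw [hf', hg', hl, hl']
    simp only [Function.comp_apply]
    rw [h1, hgi']
  · intro r hr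
    set R : T2 × T2 → T2 × T2 → Prop := fun c d => r ⟨cv c, cv_mem c⟩ ⟨cv d, cv_mem d⟩ with hR
    have hmap : ∀ m : T2 × T2 → T2 × T2, (∃ f, IsAutoparatopism T2 f ∧ ∀ c, f (cv c) = cv (m c)) →
        ∀ c d, R c d → R (m c) (m d) := by
      rintro m ⟨f, hf, hf'⟩ c d h
      exact hr f hf ⟨cv c, cv_mem c⟩ ⟨cv d, cv_mem d⟩ _ _ (hf' c).symm (hf' d).symm h
    have hAdm : Adm R :=
      ⟨fun c => r.refl _, fun c d h => r.symm h, fun c d e h h' => r.trans h h',
        fun s => hmap _ (step_auto mloopT s), hmap _ (s1_auto mloopT), hmap _ (s2_auto mloopT)⟩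
    by_cases htriv : ∀ c d : cells T2, r c d → c = d
    · left
      ext c d
      exact ⟨fun h => htriv c d h, fun h => by rw [show c = d from h]⟩
    · right
      push Not at htriv
      obtain ⟨⟨a, ha⟩, ⟨b, hb⟩, hab, hne⟩ := htriv
      obtain ⟨c, rfl⟩ := exists_cv ha
      obtain ⟨d, rfl⟩ := exists_cv hb
      have hcd : c ≠ d := by rintro rfl; exact hne rfl
      have hall := primT hAdm (hmap _ swp_auto) hcd hab
      ext c d
      refine ⟨fun _ => trivial, fun _ => ?_⟩
      obtain ⟨c, hc⟩ := c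
      obtain ⟨d, hd⟩ := d
      obtain ⟨c, rfl⟩ := exists_cv hc
      obtain ⟨d, rfl⟩ := exists_cv hd
      exact hall c d

end Pool.Agent.MPb62fd5
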