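import Pool.Agent.MPb62fd5.FiniteCard

set_option autoImplicit false
set_option linter.unusedVariables false

namespace Pool.Agent.MPb62fd5

section transfer

variable {M N : Type} [Mul M] [Mul N] (e : M ≃ N)

/-- transport of self-maps of triples -/
def tr (f : (Fin 3 → M) → (Fin 3 → M)) (v : Fin 3 → N) : Fin 3 → N :=
  fun i => e (f (fun j => e.symm (v j)) i)

variable (he : ∀ x y, e (x * y) = e x * e y)

include he in
theorem cells_iff (v : Fin 3 → M) : v ∈ cells M ↔ (fun i => e (v i)) ∈ cells N := by
  change v 2 = v 0 * v 1 ↔ e (v 2) = e (v 0) * e (v 1)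
  rw [← he, e.injective.eq_iff]

include he in
theorem cells_iff' (v : Fin 3 → N) : v ∈ cells N ↔ (fun i => e.symm (v i)) ∈ cells M := by
  rw [cells_iff e he]
  simp only [Equiv.apply_symm_apply]

include he in
theorem tr_auto {f : (Fin 3 → M) → (Fin 3 → M)} (hf : IsAutoparatopism M f) :
    IsAutoparatopism N (tr e f) := by
  obtain ⟨⟨α, σ, rfl⟩, h⟩ := hf
  refine ⟨⟨fun i => (e.symm.trans (α i)).trans e, σ, rfl⟩, ?_⟩
  ext v
  constructor
  · rintro ⟨w, hw, rfl⟩
    have h1 : (fun j => e.symm (w j)) ∈ cells M := (cells_iff' e he w).1 hw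
    have h2 : paratopism α σ (fun j => e.symm (w j)) ∈ cells M := by
      rw [← h]; exact ⟨_, h1, rfl⟩
    exact (cells_iff e he _).1 h2
  · intro hv
    have h1 : (fun j => e.symm (v j)) ∈ cells M := (cells_iff' e he v).1 hv
    rw [← h] at h1
    obtain ⟨w, hw, h2⟩ := h1
    refine ⟨fun i => e (w i), (cells_iff e he w).1 hw, ?_⟩
    funext i
    simp only [tr, Equiv.symm_apply_apply]
    have := congrFun h2 i
    rw [this, Equiv.apply_symm_apply]

include he in
theorem HasPrimitiveAutoparatopismGroup.transfer (h : HasPrimitiveAutoparatopismGroup M) :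
    HasPrimitiveAutoparatopismGroup N := by
  obtain ⟨htrans, hprim⟩ := h
  constructor
  · intro c hc d hd
    obtain ⟨f, hf, hfc⟩ := htrans _ ((cells_iff' e he c).1 hc) _ ((cells_iff' e he d).1 hd)
    refine ⟨tr e f, tr_auto e he hf, ?_⟩
    funext i
    simp only [tr]
    rw [hfc, Equiv.apply_symm_apply]
  · intro r hr
    let g : cells M → cells N := fun v => ⟨fun i => e (v.1 i), (cells_iff e he v.1).1 v.2⟩
    have hg : Function.Surjective g := by
      rintro ⟨v, hv⟩
      refine ⟨⟨fun i => e.symm (v i), (cells_iff' e he v).1 hv⟩, ?_⟩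
      apply Subtype.ext
      funext i
      simp [g]
    have hgi : Function.Injective g := by
      intro v w h
      apply Subtype.ext
      funext i
      exact e.injective (congrFun (congrArg Subtype.val h) i)
    rcases hprim (r.comap g) (by
      intro f hf c d c' d' hc hd h
      refine hr (tr e f) (tr_auto e he hf) (g c) (g d) (g c') (g d') ?_ ?_ h
      · funext i
        simp only [tr, g, Equiv.symm_apply_apply]
        rw [hc]
      · funext i
        simp only [tr, g, Equiv.symm_apply_apply]
        rw [hd]) with h | h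
    · left
      ext a b
      obtain ⟨c, rfl⟩ := hg a
      obtain ⟨d, rfl⟩ := hg b
      constructor
      · intro hab
        have h1 : (r.comap g) c d := hab
        rw [h] at h1
        have h2 : c = d := h1
        rw [h2]
      · intro hab
        have h2 : g c = g d := hab
        rw [h2]
    · right
      ext a b
      obtain ⟨c, rfl⟩ := hg a
      obtain ⟨d, rfl⟩ := hg b
      refine ⟨fun _ => trivial, fun _ => ?_⟩
      have h1 : (r.comap g) c d := by rw [h]; trivial
      exact h1

include he in
theorem IsQuasigroup.transfer (h : IsQuasigroup M) : IsQuasigroup N := by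
  intro a b
  obtain ⟨⟨x, hx, hx'⟩, ⟨y, hy, hy'⟩⟩ := h (e.symm a) (e.symm b)
  simp only at hx hx' hy hy'
  constructor
  · refine ⟨e x, ?_, ?_⟩
    · have := congrArg e hx
      simpa [he] using this
    · intro z hz
      rw [← hx' (e.symm z), Equiv.apply_symm_apply]
      apply e.injective
      rw [he]
      simpa using hz
  · refine ⟨e y, ?_, ?_⟩
    · have := congrArg e hy
      simpa [he] using this
    · intro z hz
      rw [← hy' (e.symm z), Equiv.apply_symm_apply]
      apply e.injective
      rw [he]
      simpa using hz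

end transfer

/-- The map from `U` to the Paige loop over the field with two elements. -/
noncomputable def toPaige (x : U) : PaigeLoop (ZMod 2) :=
  Quotient.mk (signSetoid (ZMod 2)) ⟨O8.toZ x.1, O8.norm_toZ x.2⟩

theorem toPaige_mul (x y : U) : toPaige (x * y) = toPaige x * toPaige y := by
  apply Quotient.sound
  exact Or.inl (O8.toZ_mul x.1 y.1)

theorem neg_zorn2 (x : Zorn (ZMod 2)) : Zorn.neg x = x := by
  ext i <;> simp [Zorn.neg]

theorem bz_surj (a : ZMod 2) : ∃ b, O8.bz b = a := by
  revert a; decide

theorem toPaige_bij : Function.Bijective toPaige := by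
  constructor
  · intro x y h
    rcases Quotient.exact h with h | h
    · exact U.extZ h
    · rw [neg_zorn2] at h
      exact U.extZ h
  · intro q
    induction q using Quotient.inductionOn with | _ z => ?_
    obtain ⟨z, hz⟩ := z
    obtain ⟨a, ha⟩ := bz_surj z.a
    obtain ⟨b, hb⟩ := bz_surj z.b
    obtain ⟨u1, hu1⟩ := bz_surj (z.u 0)
    obtain ⟨u2, hu2⟩ := bz_surj (z.u 1)
    obtain ⟨u3, hu3⟩ := bz_surj (z.u 2)
    obtain ⟨v1, hv1⟩ := bz_surj (z.v 0)
    obtain ⟨v2, hv2⟩ := bz_surj (z.v 1)
    obtain ⟨v3, hv3⟩ := bz_surj (z.v 2)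
    have e : O8.toZ ⟨a, u1, u2, u3, v1, v2, v3, b⟩ = z := by
      ext i
      · exact ha
      · fin_cases i
        · exact hu1
        · exact hu2
        · exact hu3
      · fin_cases i
        · exact hv1
        · exact hv2
        · exact hv3
      · exact hb
    refine ⟨⟨⟨a, u1, u2, u3, v1, v2, v3, b⟩, ?_⟩, ?_⟩
    · apply O8.bz_inj
      rw [O8.bz_norm, e, hz]; rfl
    · apply Quotient.sound
      exact Or.inl e

/-- The isomorphism from `U × U` to the square of the Paige loop of order 120. -/
noncomputable def isoT : T2 ≃ PaigeLoop (ZMod 2) × PaigeLoop (ZMod 2) :=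
  (Equiv.ofBijective _ toPaige_bij).prodCongr (Equiv.ofBijective _ toPaige_bij)

theorem isoT_mul (x y : T2) : isoT (x * y) = isoT x * isoT y :=
  Prod.ext (toPaige_mul x.1 y.1) (toPaige_mul x.2 y.2)

theorem not_assoc : ∃ x y z : U, (x * y) * z ≠ x * (y * z) := by
  refine ⟨⟨⟨false, false, false, true, false, false, true, false⟩, by decide⟩,
    ⟨⟨false, false, false, true, false, false, true, true⟩, by decide⟩,
    ⟨⟨false, false, false, true, false, true, true, false⟩, by decide⟩, ?_⟩
  intro h
  have h1 := congrArg Subtype.val h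
  have h2 := congrArg (fun x : O8 => x.u1) h1
  have h3 := congrArg (fun x : O8 => x.u2) h1
  have h4 := congrArg (fun x : O8 => x.u3) h1
  have h5 := congrArg (fun x : O8 => x.v1) h1
  have h6 := congrArg (fun x : O8 => x.v2) h1
  have h7 := congrArg (fun x : O8 => x.v3) h1
  have h8 := congrArg (fun x : O8 => x.a) h1
  have h9 := congrArg (fun x : O8 => x.b) h1
  revert h2 h3 h4 h5 h6 h7 h8 h9
  clear h h1
  decide

end Pool.Agent.MPb62fd5
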