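import Pool.Agent.MPb62fd5.Bol

set_option autoImplicit false

open Matrix

namespace Pool.Agent.MPb62fd5

namespace Zorn

variable {F : Type*} [CommRing F]

theorem middle_moufang (x y z : Zorn F) :
    mul (mul x y) (mul z x) = mul (mul x (mul y z)) x := by
  ext i
  · simp only [mul, dotProduct, Fin.sum_univ_three, cross_apply, Pi.add_apply, Pi.sub_apply,
      Pi.smul_apply, smul_eq_mul, Matrix.cons_val_zero, Matrix.cons_val_one, Matrix.cons_val]
    ring
  · fin_cases i <;> simp only [mul, dotProduct, Fin.sum_univ_three, cross_apply, Pi.add_apply,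
      Pi.sub_apply, Pi.smul_apply, smul_eq_mul, Matrix.cons_val_zero, Matrix.cons_val_one,
      Matrix.cons_val] <;> simp <;> ring
  · fin_cases i <;> simp only [mul, dotProduct, Fin.sum_univ_three, cross_apply, Pi.add_apply,
      Pi.sub_apply, Pi.smul_apply, smul_eq_mul, Matrix.cons_val_zero, Matrix.cons_val_one,
      Matrix.cons_val] <;> simp <;> ring
  · simp only [mul, dotProduct, Fin.sum_univ_three, cross_apply, Pi.add_apply, Pi.sub_apply,
      Pi.smul_apply, smul_eq_mul, Matrix.cons_val_zero, Matrix.cons_val_one, Matrix.cons_val]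
    ring

theorem right_moufang (x y z : Zorn F) :
    mul (mul (mul z x) y) x = mul z (mul (mul x y) x) := by
  ext i
  · simp only [mul, dotProduct, Fin.sum_univ_three, cross_apply, Pi.add_apply, Pi.sub_apply,
      Pi.smul_apply, smul_eq_mul, Matrix.cons_val_zero, Matrix.cons_val_one, Matrix.cons_val]
    ring
  · fin_cases i <;> simp only [mul, dotProduct, Fin.sum_univ_three, cross_apply, Pi.add_apply,
      Pi.sub_apply, Pi.smul_apply, smul_eq_mul, Matrix.cons_val_zero, Matrix.cons_val_one,
      Matrix.cons_val] <;> simp <;> ring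
  · fin_cases i <;> simp only [mul, dotProduct, Fin.sum_univ_three, cross_apply, Pi.add_apply,
      Pi.sub_apply, Pi.smul_apply, smul_eq_mul, Matrix.cons_val_zero, Matrix.cons_val_one,
      Matrix.cons_val] <;> simp <;> ring
  · simp only [mul, dotProduct, Fin.sum_univ_three, cross_apply, Pi.add_apply, Pi.sub_apply,
      Pi.smul_apply, smul_eq_mul, Matrix.cons_val_zero, Matrix.cons_val_one, Matrix.cons_val]
    ring

theorem mul_mul_conj (x y : Zorn F) (hx : norm x = 1) : mul (mul y x) (conj x) = y := by
  have h : mul (mul y x) (conj x) = ⟨norm x * y.a, norm x • y.u, norm x • y.v, norm x * y.b⟩ := by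
    ext i
    · simp only [mul, conj, norm, dotProduct, Fin.sum_univ_three, cross_apply, Pi.add_apply,
        Pi.sub_apply, Pi.smul_apply, Pi.neg_apply, smul_eq_mul, Matrix.cons_val_zero,
        Matrix.cons_val_one, Matrix.cons_val]
      ring
    · fin_cases i <;> simp only [mul, conj, norm, dotProduct, Fin.sum_univ_three, cross_apply,
        Pi.add_apply, Pi.sub_apply, Pi.smul_apply, Pi.neg_apply, smul_eq_mul,
        Matrix.cons_val_zero, Matrix.cons_val_one, Matrix.cons_val] <;> simp <;> ring
    · fin_cases i <;> simp only [mul, conj, norm, dotProduct, Fin.sum_univ_three, cross_apply,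
        Pi.add_apply, Pi.sub_apply, Pi.smul_apply, Pi.neg_apply, smul_eq_mul,
        Matrix.cons_val_zero, Matrix.cons_val_one, Matrix.cons_val] <;> simp <;> ring
    · simp only [mul, conj, norm, dotProduct, Fin.sum_univ_three, cross_apply, Pi.add_apply,
        Pi.sub_apply, Pi.smul_apply, Pi.neg_apply, smul_eq_mul, Matrix.cons_val_zero,
        Matrix.cons_val_one, Matrix.cons_val]
      ring
  rw [h, hx]
  ext i <;> simp

theorem flexible (x y : Zorn F) : mul (mul x y) x = mul x (mul y x) := by
  ext i
  · simp only [mul, dotProduct, Fin.sum_univ_three, cross_apply, Pi.add_apply, Pi.sub_apply,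
      Pi.smul_apply, smul_eq_mul, Matrix.cons_val_zero, Matrix.cons_val_one, Matrix.cons_val]
    ring
  · fin_cases i <;> simp only [mul, dotProduct, Fin.sum_univ_three, cross_apply, Pi.add_apply,
      Pi.sub_apply, Pi.smul_apply, smul_eq_mul, Matrix.cons_val_zero, Matrix.cons_val_one,
      Matrix.cons_val] <;> simp <;> ring
  · fin_cases i <;> simp only [mul, dotProduct, Fin.sum_univ_three, cross_apply, Pi.add_apply,
      Pi.sub_apply, Pi.smul_apply, smul_eq_mul, Matrix.cons_val_zero, Matrix.cons_val_one,
      Matrix.cons_val] <;> simp <;> ring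
  · simp only [mul, dotProduct, Fin.sum_univ_three, cross_apply, Pi.add_apply, Pi.sub_apply,
      Pi.smul_apply, smul_eq_mul, Matrix.cons_val_zero, Matrix.cons_val_one, Matrix.cons_val]
    ring

theorem right_alt (x y : Zorn F) : mul (mul x y) y = mul x (mul y y) := by
  ext i
  · simp only [mul, dotProduct, Fin.sum_univ_three, cross_apply, Pi.add_apply, Pi.sub_apply,
      Pi.smul_apply, smul_eq_mul, Matrix.cons_val_zero, Matrix.cons_val_one, Matrix.cons_val]
    ring
  · fin_cases i <;> simp only [mul, dotProduct, Fin.sum_univ_three, cross_apply, Pi.add_apply,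
      Pi.sub_apply, Pi.smul_apply, smul_eq_mul, Matrix.cons_val_zero, Matrix.cons_val_one,
      Matrix.cons_val] <;> simp <;> ring
  · fin_cases i <;> simp only [mul, dotProduct, Fin.sum_univ_three, cross_apply, Pi.add_apply,
      Pi.sub_apply, Pi.smul_apply, smul_eq_mul, Matrix.cons_val_zero, Matrix.cons_val_one,
      Matrix.cons_val] <;> simp <;> ring
  · simp only [mul, dotProduct, Fin.sum_univ_three, cross_apply, Pi.add_apply, Pi.sub_apply,
      Pi.smul_apply, smul_eq_mul, Matrix.cons_val_zero, Matrix.cons_val_one, Matrix.cons_val]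
    ring

theorem conj_flex (x y : Zorn F) : mul (mul (conj x) y) x = mul (conj x) (mul y x) := by
  ext i
  · simp only [mul, conj, dotProduct, Fin.sum_univ_three, cross_apply, Pi.add_apply,
      Pi.sub_apply, Pi.smul_apply, Pi.neg_apply, smul_eq_mul, Matrix.cons_val_zero,
      Matrix.cons_val_one, Matrix.cons_val]
    ring
  · fin_cases i <;> simp only [mul, conj, dotProduct, Fin.sum_univ_three, cross_apply,
      Pi.add_apply, Pi.sub_apply, Pi.smul_apply, Pi.neg_apply, smul_eq_mul,
      Matrix.cons_val_zero, Matrix.cons_val_one, Matrix.cons_val] <;> simp <;> ring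
  · fin_cases i <;> simp only [mul, conj, dotProduct, Fin.sum_univ_three, cross_apply,
      Pi.add_apply, Pi.sub_apply, Pi.smul_apply, Pi.neg_apply, smul_eq_mul,
      Matrix.cons_val_zero, Matrix.cons_val_one, Matrix.cons_val] <;> simp <;> ring
  · simp only [mul, conj, dotProduct, Fin.sum_univ_three, cross_apply, Pi.add_apply,
      Pi.sub_apply, Pi.smul_apply, Pi.neg_apply, smul_eq_mul, Matrix.cons_val_zero,
      Matrix.cons_val_one, Matrix.cons_val]
    ring

theorem conj_conj (x : Zorn F) : conj (conj x) = x := by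
  ext i <;> simp [conj]

end Zorn

end Pool.Agent.MPb62fd5
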