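import Pool.Agent.MPb62fd5.Oct2
import Pool.Agent.MPb62fd5.ZornId

set_option autoImplicit false

namespace Pool.Agent.MPb62fd5

/-- The identities used. -/
structure MLoop (M : Type) [Mul M] [One M] [Inv M] : Prop where
  one_mul : ∀ x : M, 1 * x = x
  mul_one : ∀ x : M, x * 1 = x
  lip : ∀ x y : M, x⁻¹ * (x * y) = y
  rip : ∀ x y : M, (y * x) * x⁻¹ = y
  inv_inv : ∀ x : M, x⁻¹⁻¹ = x
  inv_one : (1 : M)⁻¹ = 1
  middle : ∀ x y z : M, (x * y) * (z * x) = (x * (y * z)) * x
  left : ∀ x y z : M, ((x * y) * x) * z = x * (y * (x * z))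
  right : ∀ x y z : M, ((z * x) * y) * x = z * ((x * y) * x)
  flex : ∀ x y : M, (x * y) * x = x * (y * x)
  ralt : ∀ x y : M, (x * y) * y = x * (y * y)
  iflex : ∀ x y : M, (x⁻¹ * y) * x = x⁻¹ * (y * x)

/-- a move on cells: `(x, y) ↦ (u x, y u)` or `(x, y) ↦ (x u⁻¹, (u y) u)` -/
def step {M : Type} [Mul M] [Inv M] (s : Bool × M) (c : M × M) : M × M :=
  match s.1 with
  | false => (s.2 * c.1, c.2 * s.2)
  | true => (c.1 * s.2⁻¹, (s.2 * c.2) * s.2)

/-- composition of moves -/
def app {M : Type} [Mul M] [Inv M] (l : List (Bool × M)) (c : M × M) : M × M :=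
  l.foldl (fun c s => step s c) c

/-- invariant equivalence relation on cells -/
structure Adm {M : Type} [Mul M] [Inv M] (R : M × M → M × M → Prop) : Prop where
  refl : ∀ c, R c c
  symm : ∀ c d, R c d → R d c
  trans : ∀ c d e, R c d → R d e → R c e
  step : ∀ s c d, R c d → R (step s c) (step s d)
  s1 : ∀ c d, R c d → R (c.1⁻¹, c.1 * c.2) (d.1⁻¹, d.1 * d.2)
  s2 : ∀ c d, R c d → R (c.1 * c.2, c.2⁻¹) (d.1 * d.2, d.2⁻¹)

section general

variable {M : Type} [Mul M] [One M] [Inv M]

theorem MLoop.inv_mul (h : MLoop M) (x : M) : x⁻¹ * x = 1 := by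
  have := h.lip x 1
  rwa [h.mul_one] at this

theorem MLoop.mul_inv (h : MLoop M) (x : M) : x * x⁻¹ = 1 := by
  have := h.rip x 1
  rwa [h.one_mul] at this

theorem MLoop.lip' (h : MLoop M) (x y : M) : x * (x⁻¹ * y) = y := by
  have := h.lip x⁻¹ y
  rwa [h.inv_inv] at this

theorem MLoop.rip' (h : MLoop M) (x y : M) : (y * x⁻¹) * x = y := by
  have := h.rip x⁻¹ y
  rwa [h.inv_inv] at this

theorem MLoop.cancel (h : MLoop M) {x y z : M} (e : x * y = x * z) : y = z := by
  rw [← h.lip x y, e, h.lip]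

theorem MLoop.cancel' (h : MLoop M) {x y z : M} (e : y * x = z * x) : y = z := by
  rw [← h.rip x y, e, h.rip]

theorem step_inv (h : MLoop M) (b : Bool) (u : M) (c : M × M) :
    step (b, u⁻¹) (step (b, u) c) = c := by
  cases b
  · simp [step, h.lip, h.rip]
  · simp only [step]
    rw [h.flex u, h.lip, h.rip, h.rip]

theorem step_inv' (h : MLoop M) (b : Bool) (u : M) (c : M × M) :
    step (b, u) (step (b, u⁻¹) c) = c := by
  have := step_inv h b u⁻¹ c
  rwa [h.inv_inv] at this

theorem step_injective (h : MLoop M) (s : Bool × M) : Function.Injective (step s) := by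
  intro c d e
  have h1 := step_inv h s.1 s.2 c
  have h2 := step_inv h s.1 s.2 d
  rw [← h1, ← h2]
  exact congrArg _ e

theorem app_injective (h : MLoop M) (l : List (Bool × M)) : Function.Injective (app l) := by
  induction l with
  | nil => exact fun c d e => e
  | cons s l ih => exact fun c d e => step_injective h s (ih e)

omit [One M] in
theorem Adm.app {R : M × M → M × M → Prop} (hR : Adm R) (l : List (Bool × M)) :
    ∀ c d, R c d → R (app l c) (app l d) := by
  induction l with
  | nil => exact fun c d e => e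
  | cons s l ih => exact fun c d e => ih _ _ (hR.step s c d e)

theorem Adm.back {R : M × M → M × M → Prop} (h : MLoop M) (hR : Adm R) (l : List (Bool × M)) :
    ∀ c d, R (MPb62fd5.app l c) (MPb62fd5.app l d) → R c d := by
  induction l with
  | nil => exact fun c d e => e
  | cons s l ih =>
    intro c d e
    have h1 := ih _ _ e
    have h2 := hR.step (s.1, s.2⁻¹) _ _ h1
    rwa [step_inv h s.1 s.2 c, step_inv h s.1 s.2 d] at h2

end general

/-- The loop `M*(2)` of order 120. -/
abbrev U : Type := {x : O8 // x.norm = true}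

namespace U

instance : Mul U := ⟨fun x y => ⟨O8.mul x.1 y.1, O8.norm_mul x.2 y.2⟩⟩
instance : One U := ⟨⟨O8.one, rfl⟩⟩
instance : Inv U := ⟨fun x => ⟨O8.conj x.1, O8.norm_conj x.2⟩⟩

theorem ext {x y : U} (h : x.1 = y.1) : x = y := Subtype.ext h

theorem ext_iff {x y : U} : x = y ↔ x.1 = y.1 := ⟨fun h => by rw [h], ext⟩

theorem coe_mul (x y : U) : (x * y).1 = O8.mul x.1 y.1 := rfl
theorem coe_one : (1 : U).1 = O8.one := rfl
theorem coe_inv (x : U) : (x⁻¹).1 = O8.conj x.1 := rfl

theorem extZ {x y : U} (h : O8.toZ x.1 = O8.toZ y.1) : x = y := ext (O8.toZ_inj h)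

theorem mloop : MLoop U where
  one_mul x := ext (by
    have h : O8.allO (fun x => O8.eqb (O8.mul O8.one x) x) = true := by decide +kernel
    exact (O8.eqb_iff _ _).1 (O8.allO_spec h x.1))
  mul_one x := ext (by
    have h : O8.allO (fun x => O8.eqb (O8.mul x O8.one) x) = true := by decide +kernel
    exact (O8.eqb_iff _ _).1 (O8.allO_spec h x.1))
  lip x y := extZ (by
    simp only [coe_mul, coe_inv, O8.toZ_mul, O8.toZ_conj]
    exact Zorn.conj_mul_mul _ _ (O8.norm_toZ x.2))
  rip x y := extZ (by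
    simp only [coe_mul, coe_inv, O8.toZ_mul, O8.toZ_conj]
    exact Zorn.mul_mul_conj _ _ (O8.norm_toZ x.2))
  inv_inv x := rfl
  inv_one := rfl
  middle x y z := extZ (by
    simp only [coe_mul, O8.toZ_mul]
    exact Zorn.middle_moufang _ _ _)
  left x y z := extZ (by
    simp only [coe_mul, O8.toZ_mul]
    exact Zorn.left_moufang _ _ _)
  right x y z := extZ (by
    simp only [coe_mul, O8.toZ_mul]
    exact Zorn.right_moufang _ _ _)
  flex x y := extZ (by
    simp only [coe_mul, O8.toZ_mul]
    exact Zorn.flexible _ _)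
  ralt x y := extZ (by
    simp only [coe_mul, O8.toZ_mul]
    exact Zorn.right_alt _ _)
  iflex x y := extZ (by
    simp only [coe_mul, coe_inv, O8.toZ_mul, O8.toZ_conj]
    exact Zorn.conj_flex _ _)

/-- the conjugate `w x w⁻¹` -/
def cj (w x : U) : U := (w * x) * w⁻¹

theorem coe_cj (w x : U) : (cj w x).1 = O8.cj w.1 x.1 := rfl

/-- involution -/
def I2 (x : U) : Prop := O8.is2 x.1 = true

/-- element of order three -/
def I3 (x : U) : Prop := O8.is3 x.1 = true

theorem I2.spec {x : U} (h : I2 x) : x ≠ 1 ∧ x * x = 1 := by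
  unfold I2 O8.is2 at h
  rw [O8.force_eq] at h
  simp only [Bool.and_eq_true, Bool.not_eq_true', O8.eqb_iff] at h
  refine ⟨fun e => ?_, ext h.2⟩
  have := (O8.eqb_iff x.1 O8.one).2 (by rw [e]; rfl)
  rw [this] at h
  exact absurd h.1.2 (by decide)

theorem I3.spec {x : U} (h : I3 x) : x ≠ 1 ∧ x * x = x⁻¹ := by
  unfold I3 O8.is3 at h
  rw [O8.force_eq] at h
  simp only [Bool.and_eq_true, Bool.not_eq_true', O8.eqb_iff] at h
  refine ⟨fun e => ?_, ext h.2⟩
  have := (O8.eqb_iff x.1 O8.one).2 (by rw [e]; rfl)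
  rw [this] at h
  exact absurd h.1.2 (by decide)

theorem I2.inv {x : U} (h : I2 x) : x⁻¹ = x := by
  have h1 := h.spec.2
  have h2 := mloop.lip x x
  rw [h1, mloop.mul_one] at h2
  exact h2

theorem trich (x : U) : x = 1 ∨ I2 x ∨ I3 x := by
  have h := O8.allO_spec O8.trich x.1
  simp only [x.2, Bool.not_true, Bool.false_or, Bool.or_eq_true, O8.eqb_iff] at h
  rcases h with (h | h) | h
  · exact Or.inl (ext h)
  · exact Or.inr (Or.inl h)
  · exact Or.inr (Or.inr h)

/-- elements from octonions -/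
def u0 : U := ⟨O8.u0, by decide⟩
/-- elements from octonions -/
def w0 : U := ⟨O8.w0, by decide⟩
/-- elements from octonions -/
def v0 : U := ⟨O8.v0, by decide⟩
/-- elements from octonions -/
def y0 : U := ⟨O8.y0, by decide⟩

theorem u0_I2 : I2 u0 := O8.u0_is2
theorem w0_I3 : I3 w0 := O8.w0_is3
theorem v0_I2 : I2 v0 := O8.v0_is2
theorem y0_I3 : I3 y0 := O8.y0_is3
theorem v0_u0 : v0 * u0 = w0 := ext O8.v0_u0
theorem v0_u0_y0 : I2 (v0 * (u0 * y0)) := O8.v0_u0_y0
theorem p_I3 : I3 (w0⁻¹ * y0) := O8.p_is3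
theorem p_q : cj (w0⁻¹ * y0) (y0 * w0⁻¹) ≠ y0 * w0⁻¹ := by
  intro h
  have h1 := O8.p_q
  have h2 := (O8.eqb_iff (O8.cj (O8.mul (O8.conj O8.w0) O8.y0) (O8.mul O8.y0 (O8.conj O8.w0)))
    (O8.mul O8.y0 (O8.conj O8.w0))).2 (congrArg Subtype.val h)
  rw [h2] at h1
  exact absurd h1 (by decide)

/-- Induction along conjugation chains. -/
theorem reach_induct (t : U) (P : U → Prop) (ht : P t)
    (hP : ∀ w x, I3 w → P (cj w x) → P x) :
    ∀ (n : ℕ) (x : U), O8.reach t.1 n x.1 = true → P x := by
  intro n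
  induction n with
  | zero =>
    intro x h
    rw [O8.reach, O8.eqb_iff] at h
    rw [ext h]; exact ht
  | succ n ih =>
    intro x h
    rw [O8.reach, Bool.or_eq_true, O8.eqb_iff, List.any_eq_true] at h
    rcases h with h | ⟨w, hw, h⟩
    · rw [ext h]; exact ht
    · rw [O8.force_eq] at h
      have hw3 : O8.is3 w = true := (List.all_eq_true.1 O8.W_is3) w hw
      have hwn : O8.norm w = true := by
        unfold O8.is3 at hw3
        simp only [Bool.and_eq_true] at hw3
        exact hw3.1.1
      exact hP ⟨w, hwn⟩ x hw3 (ih (cj ⟨w, hwn⟩ x) h)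

theorem induct2 (P : U → Prop) (ht : P u0) (hP : ∀ w x, I3 w → P (cj w x) → P x) (x : U)
    (hx : I2 x) : P x := by
  refine reach_induct u0 P ht hP 4 x ?_
  have h := O8.allO_spec O8.reach2 x.1
  rw [show O8.is2 x.1 = true from hx] at h
  have h2 : O8.reach O8.u0 4 x.1 = true := by simpa using h
  exact h2

theorem induct3 (P : U → Prop) (ht : P w0) (hP : ∀ w x, I3 w → P (cj w x) → P x) (x : U)
    (hx : I3 x) : P x := by
  refine reach_induct w0 P ht hP 4 x ?_
  have h := O8.allO_spec O8.reach3 x.1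
  rw [show O8.is3 x.1 = true from hx] at h
  have h2 : O8.reach O8.w0 4 x.1 = true := by simpa using h
  exact h2

theorem cj_inv_cj (w x : U) : cj w⁻¹ (cj w x) = x := by
  unfold cj
  rw [mloop.inv_inv, mloop.iflex, mloop.rip', mloop.lip]

theorem cj_one (w : U) : cj w 1 = 1 := by
  unfold cj
  rw [mloop.mul_one, mloop.mul_inv]

theorem cj_mul {w : U} (hw : I3 w) (x y : U) : cj w x * cj w y = cj w (x * y) := by
  have h1 : cj w y = (w * (y * w)) * w := by
    unfold cj
    rw [← mloop.flex, mloop.ralt, hw.spec.2]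
  have h2 : ((w * x) * w⁻¹) * ((w * (y * w)) * w) = ((w * x) * (y * w)) * w := by
    rw [← mloop.right, mloop.rip']
  rw [h1]
  unfold cj
  rw [h2, mloop.middle, mloop.ralt, hw.spec.2]

theorem I2.cj {w z : U} (hw : I3 w) (hz : I2 z) : I2 (cj w z) := by
  have h0 : U.cj w z * U.cj w z = 1 := by rw [cj_mul hw, hz.spec.2, cj_one]
  rcases trich (U.cj w z) with e | e | e
  · exfalso
    have : z = 1 := by rw [← cj_inv_cj w z, e, cj_one]
    exact hz.spec.1 this
  · exact e
  · exfalso
    rw [e.spec.2] at h0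
    have := congrArg (fun x : U => x⁻¹) h0
    simp only [mloop.inv_inv, mloop.inv_one] at this
    exact e.spec.1 this

theorem I3.inv {w : U} (h : I3 w) : I3 w⁻¹ := by
  have key : O8.allO (fun x => !(O8.is3 x) || O8.is3 (O8.conj x)) = true := by decide +kernel
  have h1 := O8.allO_spec key w.1
  rw [show O8.is3 w.1 = true from h] at h1
  have h2 : O8.is3 (O8.conj w.1) = true := by simpa using h1
  exact h2

/-- the moves giving conjugation -/
def cjl (w : U) : List (Bool × U) := [(false, w), (true, w)]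

theorem app_cjl {w : U} (hw : I3 w) (c : U × U) : app (cjl w) c = (cj w c.1, cj w c.2) := by
  simp only [app, cjl, List.foldl, step, cj]
  congr 1
  rw [← mloop.flex, mloop.ralt, hw.spec.2]

theorem app_inv {v : U} (hv : I2 v) (c : U × U) :
    app (cjl v) c = ((v * c.1) * v, v * c.2) := by
  simp only [app, cjl, List.foldl, step]
  congr 1
  · rw [hv.inv]
  · rw [← mloop.flex, mloop.ralt, hv.spec.2, mloop.mul_one]

theorem app_inv1 {v : U} (hv : I2 v) (y : U) : app (cjl v) (1, y) = (1, v * y) := by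
  rw [app_inv hv]
  simp only [mloop.mul_one, hv.spec.2]

theorem app_append (l l' : List (Bool × U)) (c : U × U) :
    app (l ++ l') c = app l' (app l c) := by
  simp [app, List.foldl_append]

/-- Row one is moved transitively. -/
theorem trans_row1 (c : U) : ∃ l, (∀ d, (app l (1, d)).1 = 1) ∧ app l (1, c) = (1, 1) := by
  rcases trich c with rfl | h | h
  · exact ⟨[], fun _ => rfl, rfl⟩
  · refine ⟨cjl c, fun d => ?_, ?_⟩
    · rw [app_inv1 h]
    · rw [app_inv1 h, h.spec.2]
  · refine induct3 (fun c => ∃ l, (∀ d, (app l (1, d)).1 = 1) ∧ app l (1, c) = (1, 1)) ?_ ?_ c h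
    · refine ⟨cjl v0 ++ cjl u0, fun d => ?_, ?_⟩
      · rw [app_append, app_inv1 v0_I2, app_inv1 u0_I2]
      · rw [app_append, app_inv1 v0_I2, app_inv1 u0_I2, ← v0_u0]
        have e : v0 * (v0 * u0) = u0 := by
          have := mloop.lip v0 u0
          rwa [v0_I2.inv] at this
        rw [e, u0_I2.spec.2]
    · rintro w x hw ⟨l, h1, h2⟩
      refine ⟨cjl w ++ l, fun d => ?_, ?_⟩
      · rw [app_append, app_cjl hw]
        simp only [cj_one]
        exact h1 _
      · rw [app_append, app_cjl hw]
        simp only [cj_one]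
        exact h2

theorem trans_cell (c : U × U) : ∃ l, app l c = (1, 1) := by
  obtain ⟨a, b⟩ := c
  obtain ⟨l, _, h⟩ := trans_row1 (b * a⁻¹)
  refine ⟨(false, a⁻¹) :: l, ?_⟩
  have : app ((false, a⁻¹) :: l) (a, b) = app l (a⁻¹ * a, b * a⁻¹) := rfl
  rw [this, mloop.inv_mul, h]

section rel

variable {R : U × U → U × U → Prop}

theorem row1_all (hR : Adm R) {y : U} (hy : y ≠ 1) (h : R (1, 1) (1, y)) :
    ∀ z, R (1, 1) (1, z) := by
  set S : U → Prop := fun y => R (1, 1) (1, y) with hS
  have hcj : ∀ w x, I3 w → S x → S (cj w x) := by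
    intro w x hw hx
    have := hR.app (cjl w) _ _ hx
    rw [app_cjl hw, app_cjl hw] at this
    simpa only [cj_one] using this
  have hcj' : ∀ w x, I3 w → S (cj w x) → S x := by
    intro w x hw hx
    have := hcj w⁻¹ _ hw.inv hx
    rwa [cj_inv_cj] at this
  have hmul : ∀ v x, I2 v → S v → S x → S (v * x) := by
    intro v x hv h1 h2
    have := hR.app (cjl v) _ _ h2
    rw [app_inv1 hv, app_inv1 hv, mloop.mul_one] at this
    exact hR.trans _ _ _ h1 this
  -- an involution suffices
  have inv_suff : ∀ v, I2 v → S v → ∀ z, S z := by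
    intro v hv hSv
    have h0 : S u0 := by
      refine induct2 (fun x => S x → S u0) (fun h => h) ?_ v hv hSv
      intro w x hw h1 h2
      exact h1 (hcj w x hw h2)
    have hall2 : ∀ x, I2 x → S x := fun x hx => induct2 S h0 hcj' x hx
    have hw : S w0 := by
      rw [← v0_u0]
      exact hmul v0 u0 v0_I2 (hall2 _ v0_I2) h0
    intro z
    rcases trich z with rfl | hz | hz
    · exact hR.refl _
    · exact hall2 z hz
    · exact induct3 S hw hcj' z hz
  rcases trich y with h1 | h2 | h3
  · exact absurd h1 hy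
  · exact inv_suff y h2 h
  · have hw0 : S w0 := by
      refine induct3 (fun x => S x → S w0) (fun h => h) ?_ y h3 h
      intro w x hw h1 h2
      exact h1 (hcj w x hw h2)
    have hy0 : S y0 := induct3 S hw0 hcj' y0 y0_I3
    have h4 := hR.app (cjl u0 ++ cjl v0) _ _ hy0
    rw [app_append, app_inv1 u0_I2, app_inv1 v0_I2, app_append, app_inv1 u0_I2, app_inv1 v0_I2,
      mloop.mul_one, v0_u0] at h4
    exact inv_suff _ v0_u0_y0 (hR.trans _ _ _ hw0 h4)

theorem all_of_row1 (hR : Adm R) (h : ∀ z, R (1, 1) (1, z)) : ∀ c d, R c d := by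
  have key : ∀ c, R (1, 1) c := by
    rintro ⟨a, b⟩
    have h1 : R (1, 1) (a, a⁻¹) := by
      have := hR.s2 _ _ (h a)
      simpa only [mloop.mul_one, mloop.one_mul, mloop.inv_one] using this
    have h2 : ∀ y, R (a, a) (a, y * a) := by
      intro y
      have := hR.step (false, a) _ _ (h y)
      simpa only [step, mloop.mul_one, mloop.one_mul] using this
    have h3 := h2 (b * a⁻¹)
    rw [mloop.rip'] at h3
    have h4 := h2 (a⁻¹ * a⁻¹)
    rw [mloop.rip'] at h4
    exact hR.trans _ _ _ h1 (hR.trans _ _ _ (hR.symm _ _ h4) h3)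
  exact fun c d => hR.trans _ _ _ (hR.symm _ _ (key c)) (key d)

/-- two distinct equivalent cells in one row suffice -/
theorem row_lemma (hR : Adm R) {a b b' : U} (hb : b ≠ b') (h : R (a, b) (a, b')) :
    ∀ c d, R c d := by
  have h1 := hR.step (false, a⁻¹) _ _ h
  simp only [step, mloop.inv_mul] at h1
  obtain ⟨l, hl1, hl2⟩ := trans_row1 (b * a⁻¹)
  have h2 := hR.app l _ _ h1
  rw [hl2] at h2
  have h3 := hl1 (b' * a⁻¹)
  have h4 : app l (1, b' * a⁻¹) = (1, (app l (1, b' * a⁻¹)).2) := by
    ext1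
    · exact h3
    · rfl
  rw [h4] at h2
  refine all_of_row1 hR (row1_all hR ?_ h2)
  intro h5
  rw [h5, ← hl2] at h4
  have h6 := app_injective mloop l h4
  have h7 : b' * a⁻¹ = b * a⁻¹ := congrArg Prod.snd h6
  exact hb (mloop.cancel' h7).symm

/-- the rotation `(x, y, z) ↦ (y, z⁻¹, x⁻¹)` -/
theorem rot (hR : Adm R) {c d : U × U} (h : R c d) :
    R (c.2, (c.1 * c.2)⁻¹) (d.2, (d.1 * d.2)⁻¹) := by
  have := hR.s2 _ _ (hR.s1 _ _ h)
  simpa only [mloop.lip] using this

theorem col_lemma (hR : Adm R) {a a' b : U} (ha : a ≠ a') (h : R (a, b) (a', b)) :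
    ∀ c d, R c d := by
  have h1 := rot hR h
  simp only at h1
  refine row_lemma hR ?_ h1
  intro h2
  have h3 := congrArg (fun x : U => x⁻¹) h2
  simp only [mloop.inv_inv] at h3
  exact ha (mloop.cancel' h3)

theorem sym_lemma (hR : Adm R) {a b a' b' : U} (ha : b ≠ b') (hab : a * b = a' * b')
    (h : R (a, b) (a', b')) : ∀ c d, R c d := by
  have h1 := hR.s2 _ _ h
  simp only [hab] at h1
  refine row_lemma hR ?_ h1
  intro h2
  have h3 := congrArg (fun x : U => x⁻¹) h2
  simp only [mloop.inv_inv] at h3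
  exact ha h3

theorem cj_rel (hR : Adm R) {w x y : U} (hw : I3 w) (h : R (1, 1) (x, y)) :
    R (1, 1) (cj w x, cj w y) := by
  have := hR.app (cjl w) _ _ h
  rw [app_cjl hw, app_cjl hw] at this
  simpa only [cj_one] using this

/-- first coordinate of order three -/
theorem case3 (hR : Adm R) {x : U} (hx : I3 x) : ∀ y, R (1, 1) (x, y) → ∀ c d, R c d := by
  refine induct3 (fun x => ∀ y, R (1, 1) (x, y) → ∀ c d, R c d) ?_ ?_ x hx
  · intro y h
    by_cases hc : cj w0 y = y
    · have h5 := O8.allO_spec O8.fact5 y.1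
      have e1 : O8.eqb (O8.cj O8.w0 y.1) y.1 = true := by
        rw [O8.eqb_iff]; exact congrArg Subtype.val hc
      simp only [y.2, e1, Bool.not_true, Bool.false_or, Bool.or_eq_true, O8.eqb_iff] at h5
      rcases h5 with (h5 | h5) | h5
      · have : y = 1 := ext h5
        subst this
        exact col_lemma hR w0_I3.spec.1.symm h
      · have e : y = w0 := ext h5
        subst e
        -- (1,1) ~ (w,w) for all w of order three
        have hall : ∀ z, I3 z → R (1, 1) (z, z) := by
          intro z hz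
          refine induct3 (fun z => R (1, 1) (z, z)) h ?_ z hz
          intro w x hw h1
          have := cj_rel hR hw.inv h1
          rwa [cj_inv_cj] at this
        have h6 := hall y0 y0_I3
        have h7 : R (w0, w0) (y0, y0) := hR.trans _ _ _ (hR.symm _ _ h) h6
        have h8 := hR.step (false, w0⁻¹) _ _ h7
        simp only [step, mloop.inv_mul, mloop.mul_inv] at h8
        have h9 := cj_rel hR p_I3 h8
        have e2 : cj (w0⁻¹ * y0) (w0⁻¹ * y0) = w0⁻¹ * y0 := by
          unfold cj; rw [mloop.rip]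
        rw [e2] at h9
        exact row_lemma hR p_q.symm (hR.trans _ _ _ (hR.symm _ _ h8) h9)
      · have : y = w0⁻¹ := ext h5
        subst this
        refine sym_lemma hR ?_ ?_ h
        · intro e
          exact w0_I3.inv.spec.1 e.symm
        · rw [mloop.mul_inv, mloop.mul_one]
    · have h1 := cj_rel hR w0_I3 h
      have e2 : cj w0 w0 = w0 := by unfold cj; rw [mloop.rip]
      rw [e2] at h1
      exact row_lemma hR (Ne.symm hc) (hR.trans _ _ _ (hR.symm _ _ h) h1)
  · intro w x hw h1 y h2
    exact h1 _ (cj_rel hR hw h2)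

/-- **Primitivity of the base loop.** -/
theorem prim (hR : Adm R) {c d : U × U} (hcd : c ≠ d) (h : R c d) : ∀ c d, R c d := by
  obtain ⟨l, hl⟩ := trans_cell c
  have h1 := hR.app l _ _ h
  rw [hl] at h1
  have hne : app l d ≠ (1, 1) := by
    intro e
    rw [← hl] at e
    exact hcd (app_injective mloop l e).symm
  generalize app l d = e at h1 hne
  obtain ⟨x, y⟩ := e
  rcases trich x with rfl | hx | hx
  · refine row_lemma hR ?_ h1
    rintro rfl
    exact hne rfl
  · rcases trich y with rfl | hy | hy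
    · exact col_lemma hR hx.spec.1.symm h1
    · -- `x`, `y` involutions
      rcases trich (x * y) with hz | hz | hz
      · refine sym_lemma hR hy.spec.1.symm ?_ h1
        rw [hz, mloop.one_mul]
      · -- all three are involutions
        clear h hcd hl hne
        revert hz hy h1
        have := induct2 (fun x => ∀ y, I2 y → I2 (x * y) → R (1, 1) (x, y) → ∀ c d, R c d)
          ?_ ?_ x hx
        · exact fun h1 hy hz => this y hy hz h1
        · intro y hy hz h1
          have h6 := O8.allO_spec O8.fact6 y.1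
          simp only [O8.force_eq] at h6
          rw [show O8.is2 y.1 = true from hy,
            show O8.is2 (O8.mul O8.u0 y.1) = true from hz] at h6
          simp only [Bool.not_true, Bool.false_or, Bool.and_eq_true] at h6
          obtain ⟨h7, h8⟩ := h6
          have hv : I2 (y * u0) := h7
          have h9 := cj_rel hR w0_I3 h1
          have h10 := hR.trans _ _ _ (hR.symm _ _ h1) h9
          have h11 := hR.step (false, u0) _ _ h10
          simp only [step, u0_I2.spec.2] at h11
          have h12 := hR.app (cjl (y * u0)) _ _ h11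
          rw [app_inv1 hv, hv.spec.2, app_inv hv] at h12
          exact case3 hR (x := (y * u0 * (u0 * cj w0 u0)) * (y * u0)) h8 _ h12
        · intro w x hw h1 y hy hz h2
          refine h1 (cj w y) (hy.cj hw) ?_ (cj_rel hR hw h2)
          rw [cj_mul hw]
          exact hz.cj hw
      · have h2 := rot hR (rot hR h1)
        simp only [mloop.mul_one, mloop.inv_one] at h2
        exact case3 hR hz.inv _ h2
    · have h2 := rot hR h1
      simp only [mloop.mul_one, mloop.inv_one] at h2
      exact case3 hR hy _ h2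
  · exact case3 hR hx _ h1

end rel

end U

end Pool.Agent.MPb62fd5
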