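import Mathlib

set_option autoImplicit false

namespace Pool.Agent.MPb62fd5.Generic

/-- Lines of the net: a colour (row, column, symbol) and an index. -/
abbrev Line := Fin 3 × ℕ

/-- Names of generators: an index and the rotation of the colours it induces. -/
abbrev Gen := ℕ × Fin 3

theorem fin3_ne (i j : Fin 3) (h : i ≠ j) :
    ∃ k : Fin 3, (i = k + 1 ∧ j = k + 2) ∨ (i = k + 2 ∧ j = k + 1) := by
  revert i j; decide

theorem fin3_cases (k i : Fin 3) : i = k ∨ i = k + 1 ∨ i = k + 2 := by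
  revert k i; decide

theorem fin3_ne1 (k : Fin 3) : k ≠ k + 1 := by revert k; decide
theorem fin3_ne2 (k : Fin 3) : k ≠ k + 2 := by revert k; decide
theorem fin3_ne12 (k : Fin 3) : k + 1 ≠ k + 2 := by revert k; decide

/-- Forcing conditions: a partial Latin square together with partial automorphisms. -/
structure Cond where
  C : Set (Fin 3 → ℕ)
  G : Gen → Line → Line → Prop
  latin : ∀ c ∈ C, ∀ d ∈ C, ∀ i j, i ≠ j → c i = d i → c j = d j → c = d
  col : ∀ k l m, G k l m → m.1 = l.1 + k.2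
  fn : ∀ k l m m', G k l m → G k l m' → m = m'
  inj : ∀ k l l' m, G k l m → G k l' m → l = l'
  domc : ∀ k, ∀ c ∈ C, ∀ i j, i ≠ j → (∃ m, G k (i, c i) m) → (∃ m, G k (j, c j) m) →
    ∃ d ∈ C, ∀ i, G k (i, c i) (i + k.2, d (i + k.2))
  ranc : ∀ k, ∀ c ∈ C, ∀ i j, i ≠ j → (∃ l, G k l (i, c i)) → (∃ l, G k l (j, c j)) →
    ∃ d ∈ C, ∀ i, G k (i, d i) (i + k.2, c (i + k.2))
  bdd : ∃ N, (∀ c ∈ C, ∀ i, c i < N) ∧ ∀ k l m, G k l m → k.1 < N ∧ l.2 < N ∧ m.2 < N

namespace Cond

/-- `N` bounds everything that occurs in `p`. -/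
def Bd (p : Cond) (N : ℕ) : Prop :=
  (∀ c ∈ p.C, ∀ i, c i < N) ∧ ∀ k l m, p.G k l m → k.1 < N ∧ l.2 < N ∧ m.2 < N

theorem Bd.mono {p : Cond} {N M : ℕ} (h : p.Bd N) (hNM : N ≤ M) : p.Bd M :=
  ⟨fun c hc i => lt_of_lt_of_le (h.1 c hc i) hNM,
   fun k l m hg => ⟨lt_of_lt_of_le (h.2 k l m hg).1 hNM, lt_of_lt_of_le (h.2 k l m hg).2.1 hNM,
    lt_of_lt_of_le (h.2 k l m hg).2.2 hNM⟩⟩

theorem exists_bd (p : Cond) (M : ℕ) : ∃ N, M ≤ N ∧ p.Bd N := by
  obtain ⟨N, hN⟩ := p.bdd
  exact ⟨max M N, le_max_left _ _, Bd.mono (p := p) (N := N) hN (le_max_right _ _)⟩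

instance : Preorder Cond where
  le p q := p.C ⊆ q.C ∧ ∀ k l m, p.G k l m → q.G k l m
  le_refl p := ⟨subset_rfl, fun _ _ _ h => h⟩
  le_trans p q r h1 h2 := ⟨h1.1.trans h2.1, fun k l m h => h2.2 k l m (h1.2 k l m h)⟩

theorem le_def {p q : Cond} : p ≤ q ↔ p.C ⊆ q.C ∧ ∀ k l m, p.G k l m → q.G k l m := Iff.rfl

/-! ### adding a fresh cell -/

/-- Add a new cell all of whose lines are fresh. -/
def addCell (p : Cond) (N : ℕ) (hN : p.Bd N) (f : Fin 3 → ℕ) (hf : ∀ i, N ≤ f i) : Cond where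
  C := insert f p.C
  G := p.G
  latin := by
    rintro c (rfl | hc) d (rfl | hd) i j hij h1 h2
    · rfl
    · exact absurd (hN.1 d hd i) (by have := hf i; omega)
    · exact absurd (hN.1 c hc i) (by have := hf i; omega)
    · exact p.latin c hc d hd i j hij h1 h2
  col := p.col
  fn := p.fn
  inj := p.inj
  domc := by
    rintro k c (rfl | hc) i j hij ⟨m, hm⟩ h2
    · exact absurd (hN.2 _ _ _ hm).2.1 (by have := hf i; simp; omega)
    · obtain ⟨d, hd, h⟩ := p.domc k c hc i j hij ⟨m, hm⟩ h2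
      exact ⟨d, Or.inr hd, h⟩
  ranc := by
    rintro k c (rfl | hc) i j hij ⟨m, hm⟩ h2
    · exact absurd (hN.2 _ _ _ hm).2.2 (by have := hf i; simp; omega)
    · obtain ⟨d, hd, h⟩ := p.ranc k c hc i j hij ⟨m, hm⟩ h2
      exact ⟨d, Or.inr hd, h⟩
  bdd := by
    refine ⟨N + f 0 + f 1 + f 2 + 1, ?_, ?_⟩
    · rintro c (rfl | hc) i
      · fin_cases i <;> simp <;> omega
      · have := hN.1 c hc i; omega
    · intro k l m h
      have := hN.2 k l m h
      omega

theorem le_addCell (p : Cond) (N : ℕ) (hN : p.Bd N) (f : Fin 3 → ℕ) (hf : ∀ i, N ≤ f i) :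
    p ≤ p.addCell N hN f hf :=
  ⟨Set.subset_insert _ _, fun _ _ _ h => h⟩

/-! ### adding a new generator -/

/-- Add a new generator `(N, r)` with graph `H`. -/
def addGen (p : Cond) (N : ℕ) (hN : p.Bd N) (r : Fin 3) (H : Line → Line → Prop)
    (Hcol : ∀ l m, H l m → m.1 = l.1 + r)
    (Hfn : ∀ l m m', H l m → H l m' → m = m')
    (Hinj : ∀ l l' m, H l m → H l' m → l = l')
    (Hdom : ∀ c ∈ p.C, ∀ i j, i ≠ j → (∃ m, H (i, c i) m) → (∃ m, H (j, c j) m) →
      ∃ d ∈ p.C, ∀ i, H (i, c i) (i + r, d (i + r)))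
    (Hran : ∀ c ∈ p.C, ∀ i j, i ≠ j → (∃ l, H l (i, c i)) → (∃ l, H l (j, c j)) →
      ∃ d ∈ p.C, ∀ i, H (i, d i) (i + r, c (i + r)))
    (Hbd : ∃ M, ∀ l m, H l m → l.2 < M ∧ m.2 < M) : Cond where
  C := p.C
  G := fun k l m => p.G k l m ∨ (k = (N, r) ∧ H l m)
  latin := p.latin
  col := by
    rintro k l m (h | ⟨rfl, h⟩)
    · exact p.col _ _ _ h
    · exact Hcol _ _ h
  fn := by
    rintro k l m m' (h | ⟨hk, h⟩) (h' | ⟨hk', h'⟩)
    · exact p.fn _ _ _ _ h h'
    · subst hk'; exact absurd (hN.2 _ _ _ h).1 (by simp)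
    · subst hk; exact absurd (hN.2 _ _ _ h').1 (by simp)
    · exact Hfn _ _ _ h h'
  inj := by
    rintro k l m m' (h | ⟨hk, h⟩) (h' | ⟨hk', h'⟩)
    · exact p.inj _ _ _ _ h h'
    · subst hk'; exact absurd (hN.2 _ _ _ h).1 (by simp)
    · subst hk; exact absurd (hN.2 _ _ _ h').1 (by simp)
    · exact Hinj _ _ _ h h'
  domc := by
    rintro k c hc i j hij ⟨m, (h | ⟨hk, h⟩)⟩ ⟨m', (h' | ⟨hk', h'⟩)⟩
    · obtain ⟨d, hd, h⟩ := p.domc k c hc i j hij ⟨m, h⟩ ⟨m', h'⟩
      exact ⟨d, hd, fun i => Or.inl (h i)⟩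
    · subst hk'; exact absurd (hN.2 _ _ _ h).1 (by simp)
    · subst hk; exact absurd (hN.2 _ _ _ h').1 (by simp)
    · obtain ⟨d, hd, h⟩ := Hdom c hc i j hij ⟨m, h⟩ ⟨m', h'⟩
      subst hk
      exact ⟨d, hd, fun i => Or.inr ⟨rfl, h i⟩⟩
  ranc := by
    rintro k c hc i j hij ⟨m, (h | ⟨hk, h⟩)⟩ ⟨m', (h' | ⟨hk', h'⟩)⟩
    · obtain ⟨d, hd, h⟩ := p.ranc k c hc i j hij ⟨m, h⟩ ⟨m', h'⟩
      exact ⟨d, hd, fun i => Or.inl (h i)⟩
    · subst hk'; exact absurd (hN.2 _ _ _ h).1 (by simp)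
    · subst hk; exact absurd (hN.2 _ _ _ h').1 (by simp)
    · obtain ⟨d, hd, h⟩ := Hran c hc i j hij ⟨m, h⟩ ⟨m', h'⟩
      subst hk
      exact ⟨d, hd, fun i => Or.inr ⟨rfl, h i⟩⟩
  bdd := by
    obtain ⟨M, hM⟩ := Hbd
    refine ⟨N + M + 1, fun c hc i => by have := hN.1 c hc i; omega, ?_⟩
    rintro k l m (h | ⟨rfl, h⟩)
    · have := hN.2 k l m h; omega
    · have := hM l m h; simp; omega

theorem le_addGen (p : Cond) (N : ℕ) (hN : p.Bd N) (r : Fin 3) (H : Line → Line → Prop)
    (Hcol) (Hfn) (Hinj) (Hdom) (Hran) (Hbd) :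
    p ≤ p.addGen N hN r H Hcol Hfn Hinj Hdom Hran Hbd :=
  ⟨subset_rfl, fun _ _ _ h => Or.inl h⟩

/-! ### extending the domain of a generator -/

open Classical in
/-- The extended map: the old value on the domain, a fresh line elsewhere. -/
noncomputable def phi (p : Cond) (k : Gen) (N : ℕ) (l : Line) : Line :=
  if h : ∃ m, p.G k l m then h.choose else (l.1 + k.2, N + l.2)

theorem phi_eq {p : Cond} {k : Gen} {N : ℕ} {l m : Line} (h : p.G k l m) :
    p.phi k N l = m := by
  have h' : ∃ m, p.G k l m := ⟨m, h⟩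
  unfold phi
  rw [dif_pos h']
  exact p.fn _ _ _ _ h'.choose_spec h

theorem phi_not {p : Cond} {k : Gen} {N : ℕ} {l : Line} (h : ¬ ∃ m, p.G k l m) :
    p.phi k N l = (l.1 + k.2, N + l.2) := by
  unfold phi
  rw [dif_neg h]

theorem phi_col (p : Cond) (k : Gen) (N : ℕ) (l : Line) : (p.phi k N l).1 = l.1 + k.2 := by
  by_cases h : ∃ m, p.G k l m
  · obtain ⟨m, hm⟩ := h
    rw [phi_eq hm, p.col _ _ _ hm]
  · rw [phi_not h]

theorem phi_dom {p : Cond} {k : Gen} {N : ℕ} {l : Line} (h : (p.phi k N l).2 < N) :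
    p.G k l (p.phi k N l) := by
  by_cases h' : ∃ m, p.G k l m
  · obtain ⟨m, hm⟩ := h'
    rwa [phi_eq hm]
  · rw [phi_not h'] at h
    simp at h

theorem phi_inj {p : Cond} {k : Gen} {N : ℕ} (hN : p.Bd N) {l l' : Line}
    (h : p.phi k N l = p.phi k N l') : l = l' := by
  by_cases h1 : (p.phi k N l).2 < N
  · have h2 : (p.phi k N l').2 < N := by rw [← h]; exact h1
    have a := phi_dom h1
    have b := phi_dom h2
    rw [← h] at b
    exact p.inj _ _ _ _ a b
  · have h2 : ¬ (p.phi k N l').2 < N := by rw [← h]; exact h1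
    have a : ¬ ∃ m, p.G k l m := by
      rintro ⟨m, hm⟩
      apply h1
      rw [phi_eq hm]
      exact (hN.2 _ _ _ hm).2.2
    have b : ¬ ∃ m, p.G k l' m := by
      rintro ⟨m, hm⟩
      apply h2
      rw [phi_eq hm]
      exact (hN.2 _ _ _ hm).2.2
    rw [phi_not a, phi_not b, Prod.mk.injEq] at h
    ext1
    · exact add_right_cancel h.1
    · exact Nat.add_left_cancel h.2

theorem phi_lt {p : Cond} {k : Gen} {N : ℕ} (hN : p.Bd N) {l : Line} (hl : l.2 < N) :
    (p.phi k N l).2 < 2 * N := by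
  by_cases h' : ∃ m, p.G k l m
  · obtain ⟨m, hm⟩ := h'
    rw [phi_eq hm]
    have := (hN.2 _ _ _ hm).2.2
    omega
  · rw [phi_not h']
    simp; omega

/-- The set of images of the cells of `p` under the extended map. -/
def imC (p : Cond) (k : Gen) (N : ℕ) : Set (Fin 3 → ℕ) :=
  {c | ∃ d ∈ p.C, ∀ i, p.phi k N (i, d i) = (i + k.2, c (i + k.2))}

theorem imC_old {p : Cond} {k : Gen} {N : ℕ} (hN : p.Bd N) {c : Fin 3 → ℕ}
    (hc : c ∈ p.imC k N) {i j : Fin 3} (hij : i ≠ j) (hi : c i < N) (hj : c j < N) :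
    c ∈ p.C := by
  obtain ⟨d, hd, h⟩ := hc
  have key : ∀ i, c i < N → ∃ m, p.G k (i - k.2, d (i - k.2)) m := by
    intro i hi
    have := h (i - k.2)
    rw [sub_add_cancel] at this
    refine ⟨_, phi_dom (N := N) ?_⟩
    rw [this]
    exact hi
  obtain ⟨e, he, h2⟩ := p.domc k d hd (i - k.2) (j - k.2)
    (fun hh => hij (sub_left_injective hh)) (key i hi) (key j hj)
  have : c = e := by
    funext i
    have h3 := h (i - k.2)
    have h4 := h2 (i - k.2)
    rw [phi_eq h4] at h3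
    rw [sub_add_cancel] at h3
    exact (Prod.mk.inj h3).2.symm
  rw [this]; exact he

/-- Extend the generator `k` to all lines of index `< N`, by fresh images. -/
noncomputable def ext (p : Cond) (k : Gen) (N : ℕ) (hN : p.Bd N) : Cond where
  C := p.C ∪ p.imC k N
  G := fun k' l m => p.G k' l m ∨ (k' = k ∧ l.2 < N ∧ m = p.phi k N l)
  latin := by
    intro c hc d hd i j hij h1 h2
    have key : ∀ c ∈ p.C ∪ p.imC k N, ∀ d ∈ p.C, c i = d i → c j = d j → c = d := by
      rintro c (hc | hc) d hd h1 h2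
      · exact p.latin c hc d hd i j hij h1 h2
      · have hc' := imC_old hN hc hij (by rw [h1]; exact hN.1 d hd i)
          (by rw [h2]; exact hN.1 d hd j)
        exact p.latin c hc' d hd i j hij h1 h2
    rcases hd with hd | hd
    · exact key c hc d hd h1 h2
    · rcases hc with hc | hc
      · exact (key d (Or.inr hd) c hc h1.symm h2.symm).symm
      · obtain ⟨c', hc', h3⟩ := hc
        obtain ⟨d', hd', h4⟩ := hd
        have aux : ∀ i, c i = d i → c' (i - k.2) = d' (i - k.2) := by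
          intro i hi
          have h5 := h3 (i - k.2)
          have h6 := h4 (i - k.2)
          rw [sub_add_cancel] at h5 h6
          rw [hi, ← h6] at h5
          exact (Prod.mk.inj (phi_inj hN h5)).2
        have : c' = d' := p.latin c' hc' d' hd' (i - k.2) (j - k.2)
          (fun hh => hij (sub_left_injective hh)) (aux i h1) (aux j h2)
        subst this
        funext i
        have h5 := h3 (i - k.2)
        have h6 := h4 (i - k.2)
        rw [h5] at h6
        rw [sub_add_cancel] at h6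
        exact (Prod.mk.inj h6).2
  col := by
    rintro k' l m (h | ⟨rfl, _, rfl⟩)
    · exact p.col _ _ _ h
    · exact p.phi_col _ _ _
  fn := by
    rintro k' l m m' (h | ⟨hk, _, h⟩) (h' | ⟨hk', _, h'⟩)
    · exact p.fn _ _ _ _ h h'
    · subst hk'; rw [h', phi_eq h]
    · subst hk; rw [h, phi_eq h']
    · rw [h, h']
  inj := by
    rintro k' l l' m (h | ⟨hk, _, h⟩) (h' | ⟨hk', _, h'⟩)
    · exact p.inj _ _ _ _ h h'
    · subst hk'
      apply phi_inj hN (k := k')
      rw [← h', phi_eq h]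
    · subst hk
      apply phi_inj hN (k := k')
      rw [← h, phi_eq h']
    · apply phi_inj hN (k := k)
      rw [← h, ← h']
  domc := by
    intro k' c hc i j hij h1 h2
    have lt1 : c i < N := by
      rcases h1 with ⟨m, h | ⟨_, h, _⟩⟩
      · exact (hN.2 _ _ _ h).2.1
      · exact h
    have lt2 : c j < N := by
      rcases h2 with ⟨m, h | ⟨_, h, _⟩⟩
      · exact (hN.2 _ _ _ h).2.1
      · exact h
    have hc' : c ∈ p.C := by
      rcases hc with hc | hc
      · exact hc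
      · exact imC_old hN hc hij lt1 lt2
    by_cases hk : k' = k
    · subst hk
      refine ⟨fun j => (p.phi k' N (j - k'.2, c (j - k'.2))).2, Or.inr ⟨c, hc', ?_⟩, ?_⟩
      · intro i
        ext1
        · exact p.phi_col _ _ _
        · simp
      · intro i
        refine Or.inr ⟨rfl, hN.1 c hc' i, ?_⟩
        ext1
        · exact (p.phi_col k' N (i, c i)).symm
        · simp
    · have aux : ∀ l, (∃ m, (p.G k' l m ∨ (k' = k ∧ l.2 < N ∧ m = p.phi k N l))) →
          ∃ m, p.G k' l m := by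
        rintro l ⟨m, h | ⟨h, _⟩⟩
        · exact ⟨m, h⟩
        · exact absurd h hk
      obtain ⟨d, hd, h⟩ := p.domc k' c hc' i j hij (aux _ h1) (aux _ h2)
      exact ⟨d, Or.inl hd, fun i => Or.inl (h i)⟩
  ranc := by
    intro k' c hc i j hij h1 h2
    by_cases hk : k' = k
    · subst hk
      have aux : ∀ m, (∃ l, (p.G k' l m ∨ (k' = k' ∧ l.2 < N ∧ m = p.phi k' N l))) →
          ∃ l, m = p.phi k' N l := by
        rintro m ⟨l, h | ⟨_, _, h⟩⟩
        · exact ⟨l, (phi_eq h).symm⟩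
        · exact ⟨l, h⟩
      rcases hc with hc | hc
      · obtain ⟨l1, e1⟩ := aux _ h1
        obtain ⟨l2, e2⟩ := aux _ h2
        have a1 : p.G k' l1 (i, c i) := by
          rw [e1]; apply phi_dom; rw [← e1]; exact hN.1 c hc i
        have a2 : p.G k' l2 (j, c j) := by
          rw [e2]; apply phi_dom; rw [← e2]; exact hN.1 c hc j
        obtain ⟨d, hd, h⟩ := p.ranc k' c hc i j hij ⟨l1, a1⟩ ⟨l2, a2⟩
        exact ⟨d, Or.inl hd, fun i => Or.inl (h i)⟩
      · obtain ⟨d, hd, h⟩ := hc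
        exact ⟨d, Or.inl hd, fun i => Or.inr ⟨rfl, hN.1 d hd i, (h i).symm⟩⟩
    · have aux : ∀ m, (∃ l, (p.G k' l m ∨ (k' = k ∧ l.2 < N ∧ m = p.phi k N l))) →
          ∃ l, p.G k' l m := by
        rintro l ⟨m, h | ⟨h, _⟩⟩
        · exact ⟨m, h⟩
        · exact absurd h hk
      obtain ⟨l1, e1⟩ := aux _ h1
      obtain ⟨l2, e2⟩ := aux _ h2
      have hc' : c ∈ p.C := by
        rcases hc with hc | hc
        · exact hc
        · exact imC_old hN hc hij (hN.2 _ _ _ e1).2.2 (hN.2 _ _ _ e2).2.2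
      obtain ⟨d, hd, h⟩ := p.ranc k' c hc' i j hij (aux _ h1) (aux _ h2)
      exact ⟨d, Or.inl hd, fun i => Or.inl (h i)⟩
  bdd := by
    refine ⟨2 * N + k.1 + 1, ?_, ?_⟩
    · rintro c (hc | ⟨d, hd, h⟩) i
      · have := hN.1 c hc i; omega
      · have h3 := h (i - k.2)
        rw [sub_add_cancel] at h3
        have h4 : (p.phi k N (i - k.2, d (i - k.2))).2 < 2 * N :=
          phi_lt hN (hN.1 d hd (i - k.2))
        rw [h3] at h4
        simp at h4
        omega
    · rintro k' l m (h | ⟨rfl, h, rfl⟩)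
      · have := hN.2 k' l m h; omega
      · have := phi_lt (k := k') hN h; omega

theorem le_ext (p : Cond) (k : Gen) (N : ℕ) (hN : p.Bd N) : p ≤ p.ext k N hN :=
  ⟨Set.subset_union_left, fun _ _ _ h => Or.inl h⟩

/-! ### completing all pairs of lines -/

/-- The pair of lines `(k+1, x)`, `(k+2, y)` of index `< N` is in no cell of `p`. -/
def U (p : Cond) (N : ℕ) (k : Fin 3) (x y : ℕ) : Prop :=
  x < N ∧ y < N ∧ ¬ ∃ d ∈ p.C, d (k + 1) = x ∧ d (k + 2) = y

/-- The new cells. -/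
def newC (p : Cond) (N : ℕ) : Set (Fin 3 → ℕ) :=
  {c | ∃ k, p.U N k (c (k + 1)) (c (k + 2)) ∧ c k = N + Nat.pair (c (k + 1)) (c (k + 2))}

/-- The new part of the graph of generator `g`. -/
def newG (p : Cond) (N : ℕ) (g : Gen) (l m : Line) : Prop :=
  ∃ k x y x' y', p.U N k x y ∧ p.G g (k + 1, x) (k + 1 + g.2, x') ∧
    p.G g (k + 2, y) (k + 2 + g.2, y') ∧ l = (k, N + Nat.pair x y) ∧
    m = (k + g.2, N + Nat.pair x' y')

theorem newC_lt {p : Cond} {N : ℕ} {c : Fin 3 → ℕ} {k : Fin 3}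
    (h : c k = N + Nat.pair (c (k + 1)) (c (k + 2))) (hU : p.U N k (c (k + 1)) (c (k + 2)))
    {i : Fin 3} : c i < N ↔ i ≠ k := by
  constructor
  · rintro hi rfl
    omega
  · intro hi
    rcases fin3_cases k i with rfl | rfl | rfl
    · exact absurd rfl hi
    · exact hU.1
    · exact hU.2.1

theorem mk_cell (k : Fin 3) (a b c : ℕ) :
    ∃ d : Fin 3 → ℕ, d k = a ∧ d (k + 1) = b ∧ d (k + 2) = c := by
  refine ⟨fun j => if j = k then a else if j = k + 1 then b else c, ?_, ?_, ?_⟩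
  · simp
  · simp
  · have h1 := fin3_ne2 k
    have h2 := fin3_ne12 k
    simp [h1.symm, h2.symm]

theorem U_shift {p : Cond} {N : ℕ} (hN : p.Bd N) {g : Gen} {k : Fin 3} {x y x' y' : ℕ}
    (hU : p.U N k x y)
    (h1 : p.G g (k + 1, x) (k + 1 + g.2, x')) (h2 : p.G g (k + 2, y) (k + 2 + g.2, y')) :
    p.U N (k + g.2) x' y' := by
  refine ⟨(hN.2 _ _ _ h1).2.2, (hN.2 _ _ _ h2).2.2, ?_⟩
  rintro ⟨d, hd, h3, h4⟩
  have e1 : k + g.2 + 1 = k + 1 + g.2 := add_right_comm _ _ _
  have e2 : k + g.2 + 2 = k + 2 + g.2 := add_right_comm _ _ _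
  rw [e1] at h3
  rw [e2] at h4
  subst h3 h4
  obtain ⟨e, he, h5⟩ := p.ranc g d hd (k + 1 + g.2) (k + 2 + g.2)
    (fun hh => fin3_ne12 k (add_right_cancel hh)) ⟨_, h1⟩ ⟨_, h2⟩
  apply hU.2.2
  refine ⟨e, he, ?_, ?_⟩
  · exact (Prod.mk.inj (p.inj _ _ _ _ (h5 (k + 1)) h1)).2
  · exact (Prod.mk.inj (p.inj _ _ _ _ (h5 (k + 2)) h2)).2

theorem U_shift' {p : Cond} {N : ℕ} (hN : p.Bd N) {g : Gen} {k : Fin 3} {x y x' y' : ℕ}
    (hU : p.U N (k + g.2) x' y')
    (h1 : p.G g (k + 1, x) (k + 1 + g.2, x')) (h2 : p.G g (k + 2, y) (k + 2 + g.2, y')) :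
    p.U N k x y := by
  refine ⟨(hN.2 _ _ _ h1).2.1, (hN.2 _ _ _ h2).2.1, ?_⟩
  rintro ⟨d, hd, h3, h4⟩
  have e1 : k + g.2 + 1 = k + 1 + g.2 := add_right_comm _ _ _
  have e2 : k + g.2 + 2 = k + 2 + g.2 := add_right_comm _ _ _
  subst h3 h4
  obtain ⟨e, he, h5⟩ := p.domc g d hd (k + 1) (k + 2) (fin3_ne12 k) ⟨_, h1⟩ ⟨_, h2⟩
  apply hU.2.2
  refine ⟨e, he, ?_, ?_⟩
  · rw [e1]; exact (Prod.mk.inj (p.fn _ _ _ _ (h5 (k + 1)) h1)).2
  · rw [e2]; exact (Prod.mk.inj (p.fn _ _ _ _ (h5 (k + 2)) h2)).2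

/-- Adjoin a cell, with fresh third line, through each pair of lines of different colours and of
index `< N` which has none. -/
def complete (p : Cond) (N : ℕ) (hN : p.Bd N) : Cond where
  C := p.C ∪ p.newC N
  G := fun g l m => p.G g l m ∨ p.newG N g l m
  latin := by
    have key : ∀ c ∈ p.C ∪ p.newC N, ∀ d ∈ p.C, ∀ i j, i ≠ j → c i = d i → c j = d j →
        c = d := by
      rintro c (hc | ⟨k, hU, hk⟩) d hd i j hij h1 h2
      · exact p.latin c hc d hd i j hij h1 h2
      · exfalso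
        have i1 : i ≠ k := (newC_lt hk hU).1 (by rw [h1]; exact hN.1 d hd i)
        have i2 : j ≠ k := (newC_lt hk hU).1 (by rw [h2]; exact hN.1 d hd j)
        apply hU.2.2
        refine ⟨d, hd, ?_⟩
        rcases fin3_cases k i with rfl | rfl | rfl
        · exact absurd rfl i1
        · rcases fin3_cases k j with rfl | rfl | rfl
          · exact absurd rfl i2
          · exact absurd rfl hij
          · exact ⟨h1.symm, h2.symm⟩
        · rcases fin3_cases k j with rfl | rfl | rfl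
          · exact absurd rfl i2
          · exact ⟨h2.symm, h1.symm⟩
          · exact absurd rfl hij
    intro c hc d hd i j hij h1 h2
    rcases hd with hd | hd
    · exact key c hc d hd i j hij h1 h2
    · rcases hc with hc | hc
      · exact (key d (Or.inr hd) c hc i j hij h1.symm h2.symm).symm
      · obtain ⟨k, hU, hk⟩ := hc
        obtain ⟨k', hU', hk'⟩ := hd
        have e : k = k' := by
          by_contra hne
          have aux : ∀ i, c i = d i → i ≠ k ∧ i ≠ k' := by
            intro i hi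
            by_cases h : c i < N
            · exact ⟨(newC_lt hk hU).1 h, (newC_lt hk' hU').1 (by rw [← hi]; exact h)⟩
            · have a1 : ¬ i ≠ k := fun hh => h ((newC_lt hk hU).2 hh)
              have a2 : ¬ i ≠ k' := fun hh => h (by rw [hi]; exact (newC_lt hk' hU').2 hh)
              push Not at a1 a2
              exact absurd (a1.symm.trans a2) hne
          have b1 := aux i h1
          have b2 := aux j h2
          revert b1 b2 hne hij
          clear * -
          revert i j k k'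
          decide
        subst e
        have key2 : c (k + 1) = d (k + 1) ∧ c (k + 2) = d (k + 2) := by
          by_cases hik : i = k
          · subst hik
            rw [hk, hk'] at h1
            exact Nat.pair_eq_pair.1 (Nat.add_left_cancel h1)
          · by_cases hjk : j = k
            · subst hjk
              rw [hk, hk'] at h2
              exact Nat.pair_eq_pair.1 (Nat.add_left_cancel h2)
            · rcases fin3_cases k i with rfl | rfl | rfl
              · exact absurd rfl hik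
              · rcases fin3_cases k j with rfl | rfl | rfl
                · exact absurd rfl hjk
                · exact absurd rfl hij
                · exact ⟨h1, h2⟩
              · rcases fin3_cases k j with rfl | rfl | rfl
                · exact absurd rfl hjk
                · exact ⟨h2, h1⟩
                · exact absurd rfl hij
        funext i
        rcases fin3_cases k i with rfl | rfl | rfl
        · rw [hk, hk', key2.1, key2.2]
        · exact key2.1
        · exact key2.2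
  col := by
    rintro g l m (h | ⟨k, x, y, x', y', _, _, _, rfl, rfl⟩)
    · exact p.col _ _ _ h
    · rfl
  fn := by
    rintro g l m m' (h | h) (h' | h')
    · exact p.fn _ _ _ _ h h'
    · obtain ⟨k, x, y, x', y', _, _, _, rfl, rfl⟩ := h'
      exact absurd (hN.2 _ _ _ h).2.1 (by simp)
    · obtain ⟨k, x, y, x', y', _, _, _, rfl, rfl⟩ := h
      exact absurd (hN.2 _ _ _ h').2.1 (by simp)
    · obtain ⟨k, x, y, x', y', _, a1, a2, rfl, rfl⟩ := h
      obtain ⟨k2, x2, y2, x2', y2', _, b1, b2, e, rfl⟩ := h'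
      obtain ⟨rfl, e3⟩ := Prod.mk.inj e
      obtain ⟨rfl, rfl⟩ := Nat.pair_eq_pair.1 (Nat.add_left_cancel e3)
      have c1 := (Prod.mk.inj (p.fn _ _ _ _ a1 b1)).2
      have c2 := (Prod.mk.inj (p.fn _ _ _ _ a2 b2)).2
      rw [c1, c2]
  inj := by
    rintro g l l' m (h | h) (h' | h')
    · exact p.inj _ _ _ _ h h'
    · obtain ⟨k, x, y, x', y', _, _, _, rfl, rfl⟩ := h'
      exact absurd (hN.2 _ _ _ h).2.2 (by simp)
    · obtain ⟨k, x, y, x', y', _, _, _, rfl, rfl⟩ := h
      exact absurd (hN.2 _ _ _ h').2.2 (by simp)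
    · obtain ⟨k, x, y, x', y', _, a1, a2, rfl, rfl⟩ := h
      obtain ⟨k2, x2, y2, x2', y2', _, b1, b2, rfl, e⟩ := h'
      obtain ⟨e', e3⟩ := Prod.mk.inj e
      obtain rfl := add_right_cancel e'
      obtain ⟨rfl, rfl⟩ := Nat.pair_eq_pair.1 (Nat.add_left_cancel e3)
      have c1 := (Prod.mk.inj (p.inj _ _ _ _ a1 b1)).2
      have c2 := (Prod.mk.inj (p.inj _ _ _ _ a2 b2)).2
      rw [c1, c2]
  domc := by
    rintro g c (hc | ⟨k, hU, hk⟩) i j hij h1 h2
    · have aux : ∀ i, (∃ m, p.G g (i, c i) m ∨ p.newG N g (i, c i) m) →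
          ∃ m, p.G g (i, c i) m := by
        rintro i ⟨m, h | ⟨k, x, y, x', y', _, _, _, e, _⟩⟩
        · exact ⟨m, h⟩
        · exact absurd (hN.1 c hc i) (by rw [(Prod.mk.inj e).2]; simp)
      obtain ⟨d, hd, h⟩ := p.domc g c hc i j hij (aux _ h1) (aux _ h2)
      exact ⟨d, Or.inl hd, fun i => Or.inl (h i)⟩
    · have dom12 : (∃ m, p.G g (k + 1, c (k + 1)) m) ∧ ∃ m, p.G g (k + 2, c (k + 2)) m := by
        have auxk : (∃ m, p.G g (k, c k) m ∨ p.newG N g (k, c k) m) →
            (∃ m, p.G g (k + 1, c (k + 1)) m) ∧ ∃ m, p.G g (k + 2, c (k + 2)) m := by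
          rintro ⟨m, h | ⟨k', x, y, x', y', _, a1, a2, e, _⟩⟩
          · exact absurd (hN.2 _ _ _ h).2.1 (by simp [hk])
          · obtain ⟨rfl, e3⟩ := Prod.mk.inj e
            rw [hk] at e3
            obtain ⟨rfl, rfl⟩ := Nat.pair_eq_pair.1 (Nat.add_left_cancel e3)
            exact ⟨⟨_, a1⟩, ⟨_, a2⟩⟩
        have auxn : ∀ i, c i < N → (∃ m, p.G g (i, c i) m ∨ p.newG N g (i, c i) m) →
            ∃ m, p.G g (i, c i) m := by
          rintro i hi ⟨m, h | ⟨k, x, y, x', y', _, _, _, e, _⟩⟩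
          · exact ⟨m, h⟩
          · rw [(Prod.mk.inj e).2] at hi
            exact absurd hi (by simp)
        by_cases hik : i = k
        · subst hik; exact auxk h1
        · by_cases hjk : j = k
          · subst hjk; exact auxk h2
          · rcases fin3_cases k i with rfl | rfl | rfl
            · exact absurd rfl hik
            · rcases fin3_cases k j with rfl | rfl | rfl
              · exact absurd rfl hjk
              · exact absurd rfl hij
              · exact ⟨auxn _ hU.1 h1, auxn _ hU.2.1 h2⟩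
            · rcases fin3_cases k j with rfl | rfl | rfl
              · exact absurd rfl hjk
              · exact ⟨auxn _ hU.1 h2, auxn _ hU.2.1 h1⟩
              · exact absurd rfl hij
      obtain ⟨⟨⟨m1, x'⟩, hm1⟩, ⟨⟨m2, y'⟩, hm2⟩⟩ := dom12
      have hc1 := p.col _ _ _ hm1
      have hc2 := p.col _ _ _ hm2
      simp only at hc1 hc2
      subst hc1 hc2
      obtain ⟨d, hd0, hd1, hd2⟩ := mk_cell (k + g.2) (N + Nat.pair x' y') x' y'
      have e1 : k + g.2 + 1 = k + 1 + g.2 := add_right_comm _ _ _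
      have e2 : k + g.2 + 2 = k + 2 + g.2 := add_right_comm _ _ _
      refine ⟨d, Or.inr ⟨k + g.2, ?_, ?_⟩, ?_⟩
      · rw [hd1, hd2]
        exact U_shift hN hU hm1 hm2
      · rw [hd0, hd1, hd2]
      · intro i
        rcases fin3_cases k i with rfl | rfl | rfl
        · rw [hd0]
          refine Or.inr ⟨_, _, _, x', y', hU, hm1, hm2, ?_, rfl⟩
          rw [hk]
        · rw [← e1, hd1, e1]; exact Or.inl hm1
        · rw [← e2, hd2, e2]; exact Or.inl hm2
  ranc := by
    rintro g c (hc | ⟨k₀, hU, hk⟩) i j hij h1 h2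
    · have aux : ∀ i, (∃ l, p.G g l (i, c i) ∨ p.newG N g l (i, c i)) →
          ∃ l, p.G g l (i, c i) := by
        rintro i ⟨m, h | ⟨k, x, y, x', y', _, _, _, _, e⟩⟩
        · exact ⟨m, h⟩
        · exact absurd (hN.1 c hc i) (by rw [(Prod.mk.inj e).2]; simp)
      obtain ⟨d, hd, h⟩ := p.ranc g c hc i j hij (aux _ h1) (aux _ h2)
      exact ⟨d, Or.inl hd, fun i => Or.inl (h i)⟩
    · obtain ⟨k, rfl⟩ : ∃ k, k₀ = k + g.2 := ⟨k₀ - g.2, (sub_add_cancel _ _).symm⟩
      have e1 : k + g.2 + 1 = k + 1 + g.2 := add_right_comm _ _ _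
      have e2 : k + g.2 + 2 = k + 2 + g.2 := add_right_comm _ _ _
      rw [e1, e2] at hU hk
      have ran12 : (∃ l, p.G g l (k + 1 + g.2, c (k + 1 + g.2))) ∧
          ∃ l, p.G g l (k + 2 + g.2, c (k + 2 + g.2)) := by
        have auxk : (∃ l, p.G g l (k + g.2, c (k + g.2)) ∨ p.newG N g l (k + g.2, c (k + g.2))) →
            (∃ l, p.G g l (k + 1 + g.2, c (k + 1 + g.2))) ∧
              ∃ l, p.G g l (k + 2 + g.2, c (k + 2 + g.2)) := by
          rintro ⟨m, h | ⟨k', x, y, x', y', _, a1, a2, _, e⟩⟩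
          · exact absurd (hN.2 _ _ _ h).2.2 (by simp [hk])
          · obtain ⟨e', e3⟩ := Prod.mk.inj e
            obtain rfl := add_right_cancel e'
            rw [hk] at e3
            obtain ⟨rfl, rfl⟩ := Nat.pair_eq_pair.1 (Nat.add_left_cancel e3)
            exact ⟨⟨_, a1⟩, ⟨_, a2⟩⟩
        have auxn : ∀ i, c i < N → (∃ l, p.G g l (i, c i) ∨ p.newG N g l (i, c i)) →
            ∃ l, p.G g l (i, c i) := by
          rintro i hi ⟨m, h | ⟨k, x, y, x', y', _, _, _, _, e⟩⟩
          · exact ⟨m, h⟩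
          · rw [(Prod.mk.inj e).2] at hi
            exact absurd hi (by simp)
        by_cases hik : i = k + g.2
        · subst hik; exact auxk h1
        · by_cases hjk : j = k + g.2
          · subst hjk; exact auxk h2
          · rcases fin3_cases (k + g.2) i with rfl | rfl | rfl
            · exact absurd rfl hik
            · rcases fin3_cases (k + g.2) j with rfl | rfl | rfl
              · exact absurd rfl hjk
              · exact absurd rfl hij
              · rw [e1] at h1; rw [e2] at h2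
                exact ⟨auxn _ hU.1 h1, auxn _ hU.2.1 h2⟩
            · rcases fin3_cases (k + g.2) j with rfl | rfl | rfl
              · exact absurd rfl hjk
              · rw [e2] at h1; rw [e1] at h2
                exact ⟨auxn _ hU.1 h2, auxn _ hU.2.1 h1⟩
              · exact absurd rfl hij
      obtain ⟨⟨⟨m1, x⟩, hm1⟩, ⟨⟨m2, y⟩, hm2⟩⟩ := ran12
      have hc1 := add_right_cancel (p.col _ _ _ hm1)
      have hc2 := add_right_cancel (p.col _ _ _ hm2)
      simp only at hc1 hc2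
      subst hc1 hc2
      obtain ⟨d, hd0, hd1, hd2⟩ := mk_cell k (N + Nat.pair x y) x y
      refine ⟨d, Or.inr ⟨k, ?_, ?_⟩, ?_⟩
      · rw [hd1, hd2]
        exact U_shift' hN (by rw [← e1, ← e2] at hU; rw [← e1, ← e2]; exact hU) hm1 hm2
      · rw [hd0, hd1, hd2]
      · intro i
        rcases fin3_cases k i with rfl | rfl | rfl
        · rw [hd0, hk]
          refine Or.inr ⟨_, _, _, _, _, ?_, hm1, hm2, rfl, rfl⟩
          exact U_shift' hN (by rw [← e1, ← e2] at hU; rw [← e1, ← e2]; exact hU) hm1 hm2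
        · rw [hd1]; exact Or.inl hm1
        · rw [hd2]; exact Or.inl hm2
  bdd := by
    have key : ∀ x y, x < N → y < N → N + Nat.pair x y < N + (N + 1) ^ 2 + 1 := by
      intro x y hx hy
      have h1 := Nat.pair_lt_max_add_one_sq x y
      have h2 : (max x y + 1) ^ 2 ≤ (N + 1) ^ 2 := by
        apply Nat.pow_le_pow_left
        have := max_lt hx hy
        omega
      omega
    refine ⟨N + (N + 1) ^ 2 + 1, ?_, ?_⟩
    · rintro c (hc | ⟨k, hU, hk⟩) i
      · have := hN.1 c hc i; omega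
      · rcases fin3_cases k i with rfl | rfl | rfl
        · rw [hk]; exact key _ _ hU.1 hU.2.1
        · have := hU.1; omega
        · have := hU.2.1; omega
    · rintro g l m (h | ⟨k, x, y, x', y', hU, a1, a2, rfl, rfl⟩)
      · have := hN.2 g l m h; omega
      · refine ⟨?_, ?_, ?_⟩
        · have := (hN.2 _ _ _ a1).1; omega
        · exact key _ _ hU.1 hU.2.1
        · exact key _ _ (hN.2 _ _ _ a1).2.2 (hN.2 _ _ _ a2).2.2

theorem le_complete (p : Cond) (N : ℕ) (hN : p.Bd N) : p ≤ p.complete N hN :=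
  ⟨Set.subset_union_left, fun _ _ _ h => Or.inl h⟩

end Cond

end Pool.Agent.MPb62fd5.Generic
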