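import Pool.Agent.MPb62fd5.Generic

set_option autoImplicit false

namespace Pool.Agent.MPb62fd5.Generic

namespace Cond

/-- The generator `g` maps the cell `u` to the cell `v`. -/
def Maps (p : Cond) (g : Gen) (u v : Fin 3 → ℕ) : Prop :=
  ∀ i, p.G g (i, u i) (i + g.2, v (i + g.2))

theorem Maps.mono {p q : Cond} (h : p ≤ q) {g : Gen} {u v : Fin 3 → ℕ} (hm : p.Maps g u v) :
    q.Maps g u v := fun i => h.2 _ _ _ (hm i)

/-- Inverting all generators. -/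
def dual (p : Cond) : Cond where
  C := p.C
  G := fun k l m => p.G (k.1, -k.2) m l
  latin := p.latin
  col := by
    intro k l m h
    have := p.col _ _ _ h
    rw [this]
    simp
  fn := fun k l m m' h h' => p.inj _ _ _ _ h h'
  inj := fun k l m m' h h' => p.fn _ _ _ _ h h'
  domc := by
    intro k c hc i j hij h1 h2
    obtain ⟨d, hd, h⟩ := p.ranc (k.1, -k.2) c hc i j hij h1 h2
    refine ⟨d, hd, fun i => ?_⟩
    have := h (i + k.2)
    simpa using this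
  ranc := by
    intro k c hc i j hij h1 h2
    obtain ⟨d, hd, h⟩ := p.domc (k.1, -k.2) c hc i j hij h1 h2
    refine ⟨d, hd, fun i => ?_⟩
    have := h (i + k.2)
    simpa using this
  bdd := by
    obtain ⟨N, h1, h2⟩ := p.bdd
    exact ⟨N, h1, fun k l m h => ⟨(h2 _ _ _ h).1, (h2 _ _ _ h).2.2, (h2 _ _ _ h).2.1⟩⟩

theorem dense_cell (p : Cond) (k : Fin 3) (x y : ℕ) :
    ∃ q, p ≤ q ∧ ∃ c ∈ q.C, c (k + 1) = x ∧ c (k + 2) = y := by
  obtain ⟨N, hN1, hN⟩ := p.exists_bd (x + y + 1)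
  refine ⟨p.complete N hN, p.le_complete N hN, ?_⟩
  by_cases h : ∃ d ∈ p.C, d (k + 1) = x ∧ d (k + 2) = y
  · obtain ⟨d, hd, h⟩ := h
    exact ⟨d, Or.inl hd, h⟩
  · obtain ⟨d, h0, h1, h2⟩ := mk_cell k (N + Nat.pair x y) x y
    refine ⟨d, Or.inr ⟨k, ?_, ?_⟩, h1, h2⟩
    · rw [h1, h2]
      exact ⟨by omega, by omega, h⟩
    · rw [h0, h1, h2]

theorem dense_dom (p : Cond) (g : Gen) (l : Line) :
    ∃ q, p ≤ q ∧ ∃ m, q.G g l m := by
  obtain ⟨N, hN1, hN⟩ := p.exists_bd (l.2 + 1)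
  exact ⟨p.ext g N hN, p.le_ext g N hN, _, Or.inr ⟨rfl, by omega, rfl⟩⟩

theorem dense_ran (p : Cond) (g : Gen) (m : Line) :
    ∃ q, p ≤ q ∧ ∃ l, q.G g l m := by
  obtain ⟨q, h1, l, hl⟩ := p.dual.dense_dom (g.1, -g.2) m
  refine ⟨q.dual, ⟨h1.1, ?_⟩, l, ?_⟩
  · intro k l m h
    apply h1.2
    simpa [dual] using h
  · exact hl

/-- Two disjoint cells such that no other cell has two lines among their six lines. -/
def FreePair (p : Cond) (u v : Fin 3 → ℕ) : Prop :=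
  u ∈ p.C ∧ v ∈ p.C ∧ (∀ i, u i ≠ v i) ∧
    ∀ x ∈ p.C, ∀ i j, i ≠ j → (x i = u i ∨ x i = v i) → (x j = u j ∨ x j = v j) →
      x = u ∨ x = v

theorem addGen1 (p : Cond) (N : ℕ) (hN : p.Bd N) (r : Fin 3) (u u' : Fin 3 → ℕ)
    (hu : u ∈ p.C) (hu' : u' ∈ p.C) :
    ∃ q, p ≤ q ∧ q.C = p.C ∧ q.Maps (N, r) u u' ∧
      (∀ l m, q.G (N, r) l m → l.2 = u l.1) := by
  refine ⟨p.addGen N hN r (fun l m => ∃ i, l = (i, u i) ∧ m = (i + r, u' (i + r)))
    ?_ ?_ ?_ ?_ ?_ ?_, p.le_addGen N hN r _ _ _ _ _ _ _, rfl, ?_, ?_⟩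
  · rintro l m ⟨i, rfl, rfl⟩; rfl
  · rintro l m m' ⟨i, rfl, rfl⟩ ⟨j, h, rfl⟩
    obtain rfl := (Prod.mk.inj h).1
    rfl
  · rintro l l' m ⟨i, rfl, rfl⟩ ⟨j, rfl, h⟩
    obtain rfl := add_right_cancel (Prod.mk.inj h).1
    rfl
  · rintro c hc i j hij ⟨m, i', h1, _⟩ ⟨m', j', h2, _⟩
    obtain ⟨rfl, h1⟩ := Prod.mk.inj h1
    obtain ⟨rfl, h2⟩ := Prod.mk.inj h2
    have : c = u := p.latin c hc u hu _ _ hij h1 h2
    subst this
    exact ⟨u', hu', fun i => ⟨i, rfl, rfl⟩⟩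
  · rintro c hc i j hij ⟨m, i', _, h1⟩ ⟨m', j', _, h2⟩
    obtain ⟨e1, h1⟩ := Prod.mk.inj h1
    obtain ⟨e2, h2⟩ := Prod.mk.inj h2
    rw [← e1] at h1
    rw [← e2] at h2
    have : c = u' := p.latin c hc u' hu' _ _ hij h1 h2
    subst this
    exact ⟨u, hu, fun i => ⟨i, rfl, rfl⟩⟩
  · refine ⟨N, ?_⟩
    rintro l m ⟨i, rfl, rfl⟩
    exact ⟨hN.1 u hu i, hN.1 u' hu' _⟩
  · intro i
    exact Or.inr ⟨rfl, i, rfl, rfl⟩
  · rintro l m (h | ⟨_, i, rfl, _⟩)
    · exact absurd (hN.2 _ _ _ h).1 (by simp)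
    · rfl

theorem addGen2 (p : Cond) (N : ℕ) (hN : p.Bd N) (r : Fin 3) (u v u' v' : Fin 3 → ℕ)
    (h : p.FreePair u v) (h' : p.FreePair u' v') :
    ∃ q, p ≤ q ∧ q.C = p.C ∧ q.Maps (N, r) u u' ∧ q.Maps (N, r) v v' := by
  obtain ⟨hu, hv, hne, hfr⟩ := h
  obtain ⟨hu', hv', hne', hfr'⟩ := h'
  refine ⟨p.addGen N hN r (fun l m => (∃ i, l = (i, u i) ∧ m = (i + r, u' (i + r))) ∨
      (∃ i, l = (i, v i) ∧ m = (i + r, v' (i + r))))
    ?_ ?_ ?_ ?_ ?_ ?_, p.le_addGen N hN r _ _ _ _ _ _ _, rfl, ?_, ?_⟩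
  · rintro l m (⟨i, rfl, rfl⟩ | ⟨i, rfl, rfl⟩) <;> rfl
  · rintro l m m' (⟨i, rfl, rfl⟩ | ⟨i, rfl, rfl⟩) (⟨j, h, rfl⟩ | ⟨j, h, rfl⟩)
    · obtain rfl := (Prod.mk.inj h).1
      rfl
    · obtain ⟨rfl, h⟩ := Prod.mk.inj h
      exact absurd h (hne _)
    · obtain ⟨rfl, h⟩ := Prod.mk.inj h
      exact absurd h.symm (hne _)
    · obtain rfl := (Prod.mk.inj h).1
      rfl
  · rintro l l' m (⟨i, rfl, rfl⟩ | ⟨i, rfl, rfl⟩) (⟨j, rfl, h⟩ | ⟨j, rfl, h⟩)
    · obtain rfl := add_right_cancel (Prod.mk.inj h).1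
      rfl
    · obtain ⟨e, h⟩ := Prod.mk.inj h
      obtain rfl := add_right_cancel e
      exact absurd h (hne' _)
    · obtain ⟨e, h⟩ := Prod.mk.inj h
      obtain rfl := add_right_cancel e
      exact absurd h.symm (hne' _)
    · obtain rfl := add_right_cancel (Prod.mk.inj h).1
      rfl
  · intro c hc i j hij h1 h2
    have aux : ∀ i, (∃ m, (∃ i', ((i, c i) : Line) = (i', u i') ∧ m = (i' + r, u' (i' + r))) ∨
      (∃ i', ((i, c i) : Line) = (i', v i') ∧ m = (i' + r, v' (i' + r)))) →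
        c i = u i ∨ c i = v i := by
      rintro i ⟨m, ⟨i', h, _⟩ | ⟨i', h, _⟩⟩
      · obtain ⟨rfl, h⟩ := Prod.mk.inj h
        exact Or.inl h
      · obtain ⟨rfl, h⟩ := Prod.mk.inj h
        exact Or.inr h
    rcases hfr c hc i j hij (aux i h1) (aux j h2) with rfl | rfl
    · exact ⟨u', hu', fun i => Or.inl ⟨i, rfl, rfl⟩⟩
    · exact ⟨v', hv', fun i => Or.inr ⟨i, rfl, rfl⟩⟩
  · intro c hc i j hij h1 h2
    have aux : ∀ i, (∃ l, (∃ i', l = (i', u i') ∧ ((i, c i) : Line) = (i' + r, u' (i' + r))) ∨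
      (∃ i', l = (i', v i') ∧ ((i, c i) : Line) = (i' + r, v' (i' + r)))) →
        c i = u' i ∨ c i = v' i := by
      rintro i ⟨m, ⟨i', _, h⟩ | ⟨i', _, h⟩⟩
      · obtain ⟨e, h⟩ := Prod.mk.inj h
        rw [← e] at h
        exact Or.inl h
      · obtain ⟨e, h⟩ := Prod.mk.inj h
        rw [← e] at h
        exact Or.inr h
    rcases hfr' c hc i j hij (aux i h1) (aux j h2) with rfl | rfl
    · exact ⟨u, hu, fun i => Or.inl ⟨i, rfl, rfl⟩⟩
    · exact ⟨v, hv, fun i => Or.inr ⟨i, rfl, rfl⟩⟩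
  · refine ⟨N, ?_⟩
    rintro l m (⟨i, rfl, rfl⟩ | ⟨i, rfl, rfl⟩)
    · exact ⟨hN.1 u hu i, hN.1 u' hu' _⟩
    · exact ⟨hN.1 v hv i, hN.1 v' hv' _⟩
  · intro i
    exact Or.inr ⟨rfl, Or.inl ⟨i, rfl, rfl⟩⟩
  · intro i
    exact Or.inr ⟨rfl, Or.inr ⟨i, rfl, rfl⟩⟩

/-- Density for arbitrary distinct cells. -/
theorem dense_ne (p : Cond) (a b : Fin 3 → ℕ) (ha : a ∈ p.C) (hb : b ∈ p.C) (hab : a ≠ b) :
    ∃ q, p ≤ q ∧ ∃ (g : Gen) (e : Fin 3 → ℕ), e ∈ q.C ∧ q.Maps g a b ∧ q.Maps g b e ∧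
      ∀ i, a i ≠ e i := by
  obtain ⟨N, _, hN⟩ := p.exists_bd 0
  obtain ⟨p1, hle1, hC1, hm1, hd1⟩ := p.addGen1 N hN 1 a b ha hb
  obtain ⟨N1, _, hN1⟩ := p1.exists_bd 0
  have hb1 : b ∈ p1.C := hC1 ▸ hb
  have ha1 : a ∈ p1.C := hC1 ▸ ha
  refine ⟨p1.ext (N, 1) N1 hN1, hle1.trans (p1.le_ext _ _ _), (N, 1),
    fun j => (p1.phi (N, 1) N1 (j - 1, b (j - 1))).2, Or.inr ⟨b, hb1, ?_⟩,
    hm1.mono (p1.le_ext _ _ _), ?_, ?_⟩
  · intro i
    ext1
    · exact p1.phi_col _ _ _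
    · simp
  · intro i
    refine Or.inr ⟨rfl, hN1.1 b hb1 i, ?_⟩
    ext1
    · exact (p1.phi_col (N, 1) N1 (i, b i)).symm
    · simp
  · intro i
    obtain ⟨j, rfl⟩ : ∃ j, i = j + 1 := ⟨i - 1, (sub_add_cancel _ _).symm⟩
    simp only [add_sub_cancel_right]
    by_cases hj : a j = b j
    · have e1 : p1.phi (N, 1) N1 (j, b j) = (j + 1, b (j + 1)) := by
        apply phi_eq
        rw [← hj]
        exact hm1 j
      rw [e1]
      intro h
      apply hab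
      exact p.latin a ha b hb j (j + 1) (fin3_ne1 j) hj h
    · have e1 : ¬ ∃ m, p1.G (N, 1) (j, b j) m := by
        rintro ⟨m, hm⟩
        exact hj (hd1 _ _ hm).symm
      rw [phi_not e1]
      intro h
      have := hN1.1 a ha1 (j + 1)
      simp only at h
      omega

/-- Density for disjoint cells. -/
theorem dense_disj (p : Cond) (a b c d : Fin 3 → ℕ) (ha : a ∈ p.C) (hb : b ∈ p.C)
    (hc : c ∈ p.C) (hd : d ∈ p.C) (hab : ∀ i, a i ≠ b i) :
    ∃ q, p ≤ q ∧ ∃ (g g1 g2 : Gen) (a' f : Fin 3 → ℕ), a' ∈ q.C ∧ f ∈ q.C ∧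
      q.Maps g b b ∧ q.Maps g a a' ∧ q.Maps g1 a c ∧ q.Maps g1 a' f ∧ q.Maps g2 a d ∧
      q.Maps g2 a' f := by
  obtain ⟨N, _, hN⟩ := p.exists_bd 0
  obtain ⟨p1, hle1, hC1, hm1, hd1⟩ := p.addGen1 N hN 0 b b hb hb
  obtain ⟨N1, _, hN1⟩ := p1.exists_bd 0
  have hb1 : b ∈ p1.C := hC1 ▸ hb
  have ha1 : a ∈ p1.C := hC1 ▸ ha
  have hc1 : c ∈ p1.C := hC1 ▸ hc
  have hd1' : d ∈ p1.C := hC1 ▸ hd
  set p2 := p1.ext (N, 0) N1 hN1 with hp2
  have hle2 : p1 ≤ p2 := p1.le_ext _ _ _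
  have hphi : ∀ i, p1.phi (N, 0) N1 (i, a i) = (i, N1 + a i) := by
    intro i
    rw [phi_not]
    · simp
    · rintro ⟨m, hm⟩
      exact hab i (hd1 _ _ hm)
  set a' : Fin 3 → ℕ := fun i => N1 + a i with ha'
  have ha'2 : a' ∈ p2.C := by
    refine Or.inr ⟨a, ha1, fun i => ?_⟩
    rw [hphi]; simp [ha']
  have hmb2 : p2.Maps (N, 0) b b := hm1.mono hle2
  have hma2 : p2.Maps (N, 0) a a' := by
    intro i
    refine Or.inr ⟨rfl, hN1.1 a ha1 i, ?_⟩
    rw [hphi]; simp [ha']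
  have hfree2 : p2.FreePair a a' := by
    refine ⟨Or.inl ha1, ha'2, ?_, ?_⟩
    · intro i h
      have := hN1.1 a ha1 i
      simp only [ha'] at h
      omega
    · rintro x (hx | ⟨y, hy, hxy⟩) i j hij h1 h2
      · left
        have aux : ∀ i, (x i = a i ∨ x i = a' i) → x i = a i := by
          rintro i (h | h)
          · exact h
          · have := hN1.1 x hx i
            simp only [ha'] at h
            omega
        exact p1.latin x hx a ha1 i j hij (aux i h1) (aux j h2)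
      · right
        have aux : ∀ i, (x i = a i ∨ x i = a' i) → y i = a i := by
          intro i hi
          have h3 := hxy i
          simp only [add_zero] at h3
          by_cases hdom : ∃ m, p1.G (N, 0) (i, y i) m
          · obtain ⟨m, hm⟩ := hdom
            have h4 : y i = b i := hd1 _ _ hm
            have h5 : m = (i, x i) := by rw [← h3, phi_eq hm]
            have h6 := hm1 i
            simp only [add_zero] at h6
            rw [h4] at hm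
            have h7 := p1.fn _ _ _ _ hm h6
            rw [h5] at h7
            have h8 : x i = b i := (Prod.mk.inj h7).2
            rcases hi with hi | hi
            · exact absurd (hi.symm.trans h8) (hab i)
            · have := hN1.1 b hb1 i
              simp only [ha'] at hi
              omega
          · rw [phi_not hdom] at h3
            have h4 := (Prod.mk.inj h3).2
            simp only at h4
            rcases hi with hi | hi
            · have := hN1.1 a ha1 i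
              omega
            · simp only [ha'] at hi
              omega
        have : y = a := p1.latin y hy a ha1 i j hij (aux i h1) (aux j h2)
        subst this
        funext i
        have h3 := hxy i
        rw [hphi] at h3
        simp only [add_zero] at h3
        exact (Prod.mk.inj h3).2.symm
  obtain ⟨N2, _, hN2⟩ := p2.exists_bd 0
  set f : Fin 3 → ℕ := fun _ => N2 with hf
  set p3 := p2.addCell N2 hN2 f (fun _ => le_rfl) with hp3
  have hle3 : p2 ≤ p3 := p2.le_addCell _ _ _ _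
  have hc2 : c ∈ p2.C := Or.inl hc1
  have hd2 : d ∈ p2.C := Or.inl hd1'
  have hf3 : f ∈ p3.C := Or.inl rfl
  have hfree3 : p3.FreePair a a' := by
    refine ⟨Or.inr hfree2.1, Or.inr hfree2.2.1, hfree2.2.2.1, ?_⟩
    rintro x (rfl | hx) i j hij h1 h2
    · exfalso
      have e1 := hN2.1 a hfree2.1 i
      have e2 := hN2.1 a' hfree2.2.1 i
      simp only [hf] at h1
      omega
    · exact hfree2.2.2.2 x hx i j hij h1 h2
  have hfreef : ∀ c ∈ p2.C, p3.FreePair c f := by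
    intro c hc2
    refine ⟨Or.inr hc2, hf3, ?_, ?_⟩
    · intro i h
      have := hN2.1 c hc2 i
      simp only [hf] at h
      omega
    · rintro x (rfl | hx) i j hij h1 h2
      · exact Or.inr rfl
      · left
        have aux : ∀ i, (x i = c i ∨ x i = f i) → x i = c i := by
          rintro i (h | h)
          · exact h
          · have := hN2.1 x hx i
            simp only [hf] at h
            omega
        exact p2.latin x hx c hc2 i j hij (aux i h1) (aux j h2)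
  obtain ⟨N3, _, hN3⟩ := p3.exists_bd 0
  obtain ⟨p4, hle4, hC4, hm4, hm4'⟩ := p3.addGen2 N3 hN3 0 a a' c f hfree3 (hfreef c hc2)
  obtain ⟨N4, _, hN4⟩ := p4.exists_bd 0
  have tr : ∀ u v, p3.FreePair u v → p4.FreePair u v := by
    intro u v h
    unfold FreePair at h ⊢
    rw [hC4]; exact h
  obtain ⟨p5, hle5, hC5, hm5, hm5'⟩ := p4.addGen2 N4 hN4 0 a a' d f (tr _ _ hfree3)
    (tr _ _ (hfreef d hd2))
  refine ⟨p5, ?_, (N, 0), (N3, 0), (N4, 0), a', f, ?_, ?_, ?_, ?_, ?_, ?_, hm5, hm5'⟩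
  · exact hle1.trans (hle2.trans (hle3.trans (hle4.trans hle5)))
  · rw [hC5, hC4]; exact Or.inr ha'2
  · rw [hC5, hC4]; exact hf3
  · exact hmb2.mono (hle3.trans (hle4.trans hle5))
  · exact hma2.mono (hle3.trans (hle4.trans hle5))
  · exact hm4.mono hle5
  · exact hm4'.mono hle5

end Cond

end Pool.Agent.MPb62fd5.Generic
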