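import Pool.Agent.MPb62fd5.GenericDense

set_option autoImplicit false

namespace Pool.Agent.MPb62fd5.Generic

open Cond

/-- The tasks met by the generic object. -/
abbrev Task := (Fin 3 × ℕ × ℕ) ⊕ (Gen × Line) ⊕ (Gen × Line) ⊕
  ((Fin 3 → ℕ) × (Fin 3 → ℕ)) ⊕
  (((Fin 3 → ℕ) × (Fin 3 → ℕ)) × ((Fin 3 → ℕ) × (Fin 3 → ℕ)))

/-- `q` meets the fourth kind of task. -/
def Meets4 (q : Cond) (a b : Fin 3 → ℕ) : Prop :=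
  ∃ (g : Gen) (e : Fin 3 → ℕ), e ∈ q.C ∧ q.Maps g a b ∧ q.Maps g b e ∧ ∀ i, a i ≠ e i

/-- `q` meets the fifth kind of task. -/
def Meets5 (q : Cond) (a b c d : Fin 3 → ℕ) : Prop :=
  ∃ (g g1 g2 : Gen) (a' f : Fin 3 → ℕ), a' ∈ q.C ∧ f ∈ q.C ∧
      q.Maps g b b ∧ q.Maps g a a' ∧ q.Maps g1 a c ∧ q.Maps g1 a' f ∧ q.Maps g2 a d ∧
      q.Maps g2 a' f

/-- The dense sets. -/
def D : Task → Order.Cofinal Cond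
  | .inl (k, x, y) =>
    { carrier := {q | ∃ c ∈ q.C, c (k + 1) = x ∧ c (k + 2) = y}
      isCofinal := fun p => by
        obtain ⟨q, h1, h2⟩ := p.dense_cell k x y
        exact ⟨q, h2, h1⟩ }
  | .inr (.inl (g, l)) =>
    { carrier := {q | ∃ m, q.G g l m}
      isCofinal := fun p => by
        obtain ⟨q, h1, h2⟩ := p.dense_dom g l
        exact ⟨q, h2, h1⟩ }
  | .inr (.inr (.inl (g, m))) =>
    { carrier := {q | ∃ l, q.G g l m}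
      isCofinal := fun p => by
        obtain ⟨q, h1, h2⟩ := p.dense_ran g m
        exact ⟨q, h2, h1⟩ }
  | .inr (.inr (.inr (.inl (a, b)))) =>
    { carrier := {q | (∃ r, q ≤ r ∧ a ∈ r.C ∧ b ∈ r.C ∧ a ≠ b) → Meets4 q a b}
      isCofinal := fun p => by
        by_cases h : ∃ r, p ≤ r ∧ a ∈ r.C ∧ b ∈ r.C ∧ a ≠ b
        · obtain ⟨r, hr, ha, hb, hab⟩ := h
          obtain ⟨q, h1, h2⟩ := r.dense_ne a b ha hb hab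
          exact ⟨q, fun _ => h2, hr.trans h1⟩
        · exact ⟨p, fun h' => absurd h' h, le_rfl⟩ }
  | .inr (.inr (.inr (.inr ((a, b), (c, d))))) =>
    { carrier := {q | (∃ r, q ≤ r ∧ a ∈ r.C ∧ b ∈ r.C ∧ c ∈ r.C ∧ d ∈ r.C ∧ ∀ i, a i ≠ b i) →
        Meets5 q a b c d}
      isCofinal := fun p => by
        by_cases h : ∃ r, p ≤ r ∧ a ∈ r.C ∧ b ∈ r.C ∧ c ∈ r.C ∧ d ∈ r.C ∧ ∀ i, a i ≠ b i
        · obtain ⟨r, hr, ha, hb, hc, hd, hab⟩ := h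
          obtain ⟨q, h1, h2⟩ := r.dense_disj a b c d ha hb hc hd hab
          exact ⟨q, fun _ => h2, hr.trans h1⟩
        · exact ⟨p, fun h' => absurd h' h, le_rfl⟩ }

/-- The generic object. -/
theorem exists_generic (p₀ : Cond) :
    ∃ (L : Set (Fin 3 → ℕ)) (GG : Gen → Line → Line → Prop),
      p₀.C ⊆ L ∧
      (∀ c ∈ L, ∀ d ∈ L, ∀ i j, i ≠ j → c i = d i → c j = d j → c = d) ∧
      (∀ (k : Fin 3) (x y : ℕ), ∃ c ∈ L, c (k + 1) = x ∧ c (k + 2) = y) ∧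
      (∀ g l, ∃ m, GG g l m) ∧
      (∀ g m, ∃ l, GG g l m) ∧
      (∀ g l m m', GG g l m → GG g l m' → m = m') ∧
      (∀ g l l' m, GG g l m → GG g l' m → l = l') ∧
      (∀ g l m, GG g l m → m.1 = l.1 + g.2) ∧
      (∀ g, ∀ c ∈ L, ∃ d ∈ L, ∀ i, GG g (i, c i) (i + g.2, d (i + g.2))) ∧
      (∀ g, ∀ c ∈ L, ∃ d ∈ L, ∀ i, GG g (i, d i) (i + g.2, c (i + g.2))) ∧
      (∀ a ∈ L, ∀ b ∈ L, a ≠ b → ∃ g, ∃ e ∈ L, (∀ i, GG g (i, a i) (i + g.2, b (i + g.2))) ∧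
        (∀ i, GG g (i, b i) (i + g.2, e (i + g.2))) ∧ ∀ i, a i ≠ e i) ∧
      (∀ a ∈ L, ∀ b ∈ L, (∀ i, a i ≠ b i) → ∀ c ∈ L, ∀ d ∈ L, ∃ g g1 g2, ∃ a' ∈ L, ∃ f ∈ L,
        (∀ i, GG g (i, b i) (i + g.2, b (i + g.2))) ∧
        (∀ i, GG g (i, a i) (i + g.2, a' (i + g.2))) ∧
        (∀ i, GG g1 (i, a i) (i + g1.2, c (i + g1.2))) ∧
        (∀ i, GG g1 (i, a' i) (i + g1.2, f (i + g1.2))) ∧
        (∀ i, GG g2 (i, a i) (i + g2.2, d (i + g2.2))) ∧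
        (∀ i, GG g2 (i, a' i) (i + g2.2, f (i + g2.2)))) := by
  haveI : Encodable Task := inferInstance
  set I := Order.idealOfCofinals p₀ D with hI
  have hp₀ : p₀ ∈ I := Order.mem_idealOfCofinals p₀ D
  have hD : ∀ t, ∃ q, q ∈ D t ∧ q ∈ I := Order.cofinal_meets_idealOfCofinals p₀ D
  have hdir : ∀ p ∈ I, ∀ q ∈ I, ∃ r ∈ I, p ≤ r ∧ q ≤ r := I.directed
  set L : Set (Fin 3 → ℕ) := {c | ∃ p ∈ I, c ∈ p.C} with hL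
  set GG : Gen → Line → Line → Prop := fun g l m => ∃ p ∈ I, p.G g l m with hGG
  have hLl : ∀ c ∈ L, ∀ d ∈ L, ∀ i j, i ≠ j → c i = d i → c j = d j → c = d := by
    rintro c ⟨p, hp, hc⟩ d ⟨q, hq, hd⟩ i j hij h1 h2
    obtain ⟨r, hr, hpr, hqr⟩ := hdir p hp q hq
    exact r.latin c (hpr.1 hc) d (hqr.1 hd) i j hij h1 h2
  have hfn : ∀ g l m m', GG g l m → GG g l m' → m = m' := by
    rintro g l m m' ⟨p, hp, h⟩ ⟨q, hq, h'⟩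
    obtain ⟨r, hr, hpr, hqr⟩ := hdir p hp q hq
    exact r.fn _ _ _ _ (hpr.2 _ _ _ h) (hqr.2 _ _ _ h')
  have hdom : ∀ g l, ∃ m, GG g l m := by
    intro g l
    obtain ⟨q, ⟨m, hm⟩, hq⟩ := hD (.inr (.inl (g, l)))
    exact ⟨m, q, hq, hm⟩
  have hran : ∀ g m, ∃ l, GG g l m := by
    intro g m
    obtain ⟨q, ⟨l, hm⟩, hq⟩ := hD (.inr (.inr (.inl (g, m))))
    exact ⟨l, q, hq, hm⟩
  refine ⟨L, GG, ?_, hLl, ?_, hdom, hran, hfn, ?_, ?_, ?_, ?_, ?_, ?_⟩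
  · exact fun c hc => ⟨p₀, hp₀, hc⟩
  · intro k x y
    obtain ⟨q, ⟨c, hc, h⟩, hq⟩ := hD (.inl (k, x, y))
    exact ⟨c, ⟨q, hq, hc⟩, h⟩
  · rintro g l l' m ⟨p, hp, h⟩ ⟨q, hq, h'⟩
    obtain ⟨r, hr, hpr, hqr⟩ := hdir p hp q hq
    exact r.inj _ _ _ _ (hpr.2 _ _ _ h) (hqr.2 _ _ _ h')
  · rintro g l m ⟨p, hp, h⟩
    exact p.col _ _ _ h
  · rintro g c ⟨p, hp, hc⟩
    obtain ⟨m0, p0, hp0, h0⟩ := hdom g (0, c 0)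
    obtain ⟨m1, p1, hp1, h1⟩ := hdom g (1, c 1)
    obtain ⟨r, hr, hr0, hr1⟩ := hdir p0 hp0 p1 hp1
    obtain ⟨s, hs, hs0, hs1⟩ := hdir p hp r hr
    obtain ⟨d, hd, h⟩ := s.domc g c (hs0.1 hc) 0 1 (by decide)
      ⟨m0, hs1.2 _ _ _ (hr0.2 _ _ _ h0)⟩ ⟨m1, hs1.2 _ _ _ (hr1.2 _ _ _ h1)⟩
    exact ⟨d, ⟨s, hs, hd⟩, fun i => ⟨s, hs, h i⟩⟩
  · rintro g c ⟨p, hp, hc⟩
    obtain ⟨m0, p0, hp0, h0⟩ := hran g (0, c 0)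
    obtain ⟨m1, p1, hp1, h1⟩ := hran g (1, c 1)
    obtain ⟨r, hr, hr0, hr1⟩ := hdir p0 hp0 p1 hp1
    obtain ⟨s, hs, hs0, hs1⟩ := hdir p hp r hr
    obtain ⟨d, hd, h⟩ := s.ranc g c (hs0.1 hc) 0 1 (by decide)
      ⟨m0, hs1.2 _ _ _ (hr0.2 _ _ _ h0)⟩ ⟨m1, hs1.2 _ _ _ (hr1.2 _ _ _ h1)⟩
    exact ⟨d, ⟨s, hs, hd⟩, fun i => ⟨s, hs, h i⟩⟩
  · rintro a ⟨p, hp, ha⟩ b ⟨q, hq, hb⟩ hab
    obtain ⟨t, ht, htI⟩ := hD (.inr (.inr (.inr (.inl (a, b)))))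
    obtain ⟨r, hr, hpr, hqr⟩ := hdir p hp q hq
    obtain ⟨s, hs, hs0, hs1⟩ := hdir r hr t htI
    obtain ⟨g, e, he, h1, h2, h3⟩ := ht ⟨s, hs1, hs0.1 (hpr.1 ha), hs0.1 (hqr.1 hb), hab⟩
    exact ⟨g, e, ⟨t, htI, he⟩, fun i => ⟨t, htI, h1 i⟩, fun i => ⟨t, htI, h2 i⟩, h3⟩
  · rintro a ⟨p, hp, ha⟩ b ⟨q, hq, hb⟩ hab c ⟨p', hp', hc⟩ d ⟨q', hq', hd⟩
    obtain ⟨t, ht, htI⟩ := hD (.inr (.inr (.inr (.inr ((a, b), (c, d))))))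
    obtain ⟨r, hr, hpr, hqr⟩ := hdir p hp q hq
    obtain ⟨r', hr', hpr', hqr'⟩ := hdir p' hp' q' hq'
    obtain ⟨w, hw, hw0, hw1⟩ := hdir r hr r' hr'
    obtain ⟨s, hs, hs0, hs1⟩ := hdir w hw t htI
    obtain ⟨g, g1, g2, a', f, ha', hf, h1, h2, h3, h4, h5, h6⟩ := ht ⟨s, hs1,
      hs0.1 (hw0.1 (hpr.1 ha)), hs0.1 (hw0.1 (hqr.1 hb)), hs0.1 (hw1.1 (hpr'.1 hc)),
      hs0.1 (hw1.1 (hqr'.1 hd)), hab⟩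
    exact ⟨g, g1, g2, a', ⟨t, htI, ha'⟩, f, ⟨t, htI, hf⟩, fun i => ⟨t, htI, h1 i⟩,
      fun i => ⟨t, htI, h2 i⟩, fun i => ⟨t, htI, h3 i⟩, fun i => ⟨t, htI, h4 i⟩,
      fun i => ⟨t, htI, h5 i⟩, fun i => ⟨t, htI, h6 i⟩⟩

end Pool.Agent.MPb62fd5.Generic
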