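import Pool.Agent.MPb62fd5.GenericLimit
import Pool.Agent.MPb62fd5.Bol

set_option autoImplicit false

namespace Pool.Agent.MPb62fd5.Generic

/-- The eight cells of the base condition, as a list of triples. -/
def baseList : List (ℕ × ℕ × ℕ) :=
  [(0, 0, 0), (1, 1, 0), (0, 1, 1), (2, 0, 1), (0, 2, 2), (1, 3, 2), (0, 3, 3), (2, 2, 4)]

/-- A triple as a function. -/
def tri (t : ℕ × ℕ × ℕ) : Fin 3 → ℕ := ![t.1, t.2.1, t.2.2]

theorem base_latin : ∀ s ∈ baseList, ∀ t ∈ baseList, ∀ i j : Fin 3, i ≠ j →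
    tri s i = tri t i → tri s j = tri t j → s = t := by
  decide

/-- The base condition. -/
def base : Cond where
  C := {c | ∃ t ∈ baseList, c = tri t}
  G := fun _ _ _ => False
  latin := by
    rintro c ⟨s, hs, rfl⟩ d ⟨t, ht, rfl⟩ i j hij h1 h2
    rw [base_latin s hs t ht i j hij h1 h2]
  col := by intro _ _ _ h; exact h.elim
  fn := by intro _ _ _ _ h; exact h.elim
  inj := by intro _ _ _ _ h; exact h.elim
  domc := by rintro _ _ _ _ _ _ ⟨_, h⟩; exact h.elim
  ranc := by rintro _ _ _ _ _ _ ⟨_, h⟩; exact h.elim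
  bdd := by
    refine ⟨5, ?_, fun _ _ _ h => h.elim⟩
    rintro c ⟨t, ht, rfl⟩
    revert t
    decide

theorem exists_example :
    ∃ (_ : Mul ℕ), IsQuasigroup ℕ ∧ ¬ BolClosure ℕ ∧ HasPrimitiveAutoparatopismGroup ℕ := by
  obtain ⟨L, GG, hbase, hlat, htot, hdom, hran, hfn, hinj, hcol, hcl, hcr, h4, h5⟩ :=
    exists_generic base
  have h01 : ∀ x y : ℕ, ∃ c ∈ L, c 0 = x ∧ c 1 = y := fun x y => htot 2 x y
  choose cell hcell hc0 hc1 using h01
  refine ⟨⟨fun x y => cell x y 2⟩, ?_⟩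
  letI : Mul ℕ := ⟨fun x y => cell x y 2⟩
  have mul_def : ∀ x y : ℕ, x * y = cell x y 2 := fun _ _ => rfl
  have hL : ∀ v : Fin 3 → ℕ, v ∈ cells ℕ ↔ v ∈ L := by
    intro v
    change v 2 = v 0 * v 1 ↔ _
    rw [mul_def]
    constructor
    · intro h
      have : v = cell (v 0) (v 1) := by
        funext i
        fin_cases i
        · exact (hc0 _ _).symm
        · exact (hc1 _ _).symm
        · exact h
      rw [this]
      exact hcell _ _
    · intro h
      have : v = cell (v 0) (v 1) :=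
        hlat v h _ (hcell _ _) 0 1 (by decide) (hc0 _ _).symm (hc1 _ _).symm
      exact congrFun this 2
  have hLmul : ∀ v : Fin 3 → ℕ, v ∈ L → v 0 * v 1 = v 2 := fun v hv => ((hL v).2 hv).symm
  have hLval : ∀ x y z : ℕ, x * y = z → (![x, y, z] : Fin 3 → ℕ) ∈ L := by
    intro x y z h
    rw [← hL]
    exact h.symm
  have hquasi : IsQuasigroup ℕ := by
    intro a b
    constructor
    · obtain ⟨c, hc, h1, h2⟩ := htot 1 b a
      change c 2 = b at h1
      change c 0 = a at h2
      refine ⟨c 1, ?_, ?_⟩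
      · change a * c 1 = b
        rw [← h1, ← h2]
        exact hLmul c hc
      · intro y hy
        have h3 := hLval a y b hy
        exact congrFun (hlat _ h3 c hc 0 2 (by decide) h2.symm h1.symm) 1
    · obtain ⟨c, hc, h1, h2⟩ := htot 0 a b
      change c 1 = a at h1
      change c 2 = b at h2
      refine ⟨c 0, ?_, ?_⟩
      · change c 0 * a = b
        rw [← h1, ← h2]
        exact hLmul c hc
      · intro y hy
        have h3 := hLval y a b hy
        exact congrFun (hlat _ h3 c hc 1 2 (by decide) h1.symm h2.symm) 0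
  refine ⟨hquasi, ?_, ?_⟩
  · intro hB
    have hb : ∀ t ∈ baseList, t.1 * t.2.1 = t.2.2 := by
      intro t ht
      exact hLmul (tri t) (hbase ⟨t, ht, rfl⟩)
    have e1 : (0 : ℕ) * 0 = 0 := hb (0, 0, 0) (by decide)
    have e2 : (1 : ℕ) * 1 = 0 := hb (1, 1, 0) (by decide)
    have e3 : (0 : ℕ) * 1 = 1 := hb (0, 1, 1) (by decide)
    have e4 : (2 : ℕ) * 0 = 1 := hb (2, 0, 1) (by decide)
    have e5 : (0 : ℕ) * 2 = 2 := hb (0, 2, 2) (by decide)
    have e6 : (1 : ℕ) * 3 = 2 := hb (1, 3, 2) (by decide)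
    have e7 : (0 : ℕ) * 3 = 3 := hb (0, 3, 3) (by decide)
    have e8 : (2 : ℕ) * 2 = 4 := hb (2, 2, 4) (by decide)
    obtain ⟨c, hc⟩ := hB 0 1
    have f1 := hc 0 1 (by rw [e1, e2])
    rw [e3] at f1
    have f2 : c = 2 := (hquasi 0 1).2.unique f1 e4
    have f3 := hc 2 3 (by rw [e5, e6])
    rw [f2, e7, e8] at f3
    exact absurd f3 (by decide)
  · -- autoparatopisms
    have key : ∀ g : Gen, ∃ f : (Fin 3 → ℕ) → (Fin 3 → ℕ), IsAutoparatopism ℕ f ∧
        ∀ c d : Fin 3 → ℕ, (∀ i, GG g (i, c i) (i + g.2, d (i + g.2))) → f c = d := by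
      intro g
      have h1 : ∀ (i : Fin 3) (n : ℕ), ∃ m, GG g (i, n) (i + g.2, m) := by
        intro i n
        obtain ⟨m, hm⟩ := hdom g (i, n)
        have := hcol g _ _ hm
        refine ⟨m.2, ?_⟩
        have e : m = (i + g.2, m.2) := by ext1 <;> simp [this]
        rwa [e] at hm
      choose α hα using h1
      have hbij : ∀ i, Function.Bijective (α i) := by
        intro i
        constructor
        · intro x y hxy
          have a1 := hα i x
          have a2 := hα i y
          rw [hxy] at a1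
          exact (Prod.mk.inj (hinj g _ _ _ a1 a2)).2
        · intro m
          obtain ⟨l, hl⟩ := hran g (i + g.2, m)
          have e := hcol g _ _ hl
          have e' : i = l.1 := add_right_cancel e
          refine ⟨l.2, ?_⟩
          have a1 := hα i l.2
          have e2 : l = (i, l.2) := by ext1 <;> simp [e']
          rw [e2] at hl
          exact (Prod.mk.inj (hfn g _ _ _ a1 hl)).2
      have hf : ∀ c d : Fin 3 → ℕ, (∀ i, GG g (i, c i) (i + g.2, d (i + g.2))) →
          paratopism (fun i => Equiv.ofBijective (α i) (hbij i)) (Equiv.addRight g.2) c = d := by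
        intro c d h
        funext j
        obtain ⟨i, rfl⟩ : ∃ i, j = i + g.2 := ⟨j - g.2, (sub_add_cancel _ _).symm⟩
        have e : (Equiv.addRight g.2).symm (i + g.2) = i := by simp
        simp only [paratopism, e, Equiv.ofBijective_apply]
        exact (Prod.mk.inj (hfn g _ _ _ (hα i (c i)) (h i))).2
      refine ⟨_, ⟨⟨_, _, rfl⟩, ?_⟩, hf⟩
      ext v
      constructor
      · rintro ⟨c, hc, rfl⟩
        obtain ⟨d, hd, h⟩ := hcl g c ((hL c).1 hc)
        rw [hf c d h]
        exact (hL d).2 hd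
      · intro hv
        obtain ⟨d, hd, h⟩ := hcr g v ((hL v).1 hv)
        exact ⟨d, (hL d).2 hd, hf d v h⟩
    constructor
    · intro c hc d hd
      by_cases hcd : c = d
      · subst hcd
        refine ⟨id, ⟨⟨fun _ => Equiv.refl _, Equiv.refl _, ?_⟩, ?_⟩, rfl⟩
        · funext v j
          simp [paratopism]
        · simp
      · obtain ⟨g, e, he, h1, _, _⟩ := h4 c ((hL c).1 hc) d ((hL d).1 hd) hcd
        obtain ⟨f, hf, hf'⟩ := key g
        exact ⟨f, hf, hf' c d h1⟩
    · intro r hr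
      by_cases htriv : ∀ c d : cells ℕ, r c d → c = d
      · left
        ext c d
        exact ⟨fun h => htriv c d h, fun h => by rw [show c = d from h]⟩
      · right
        push Not at htriv
        obtain ⟨⟨a, ha⟩, ⟨b, hb⟩, hab, hne⟩ := htriv
        have haL := (hL a).1 ha
        have hbL := (hL b).1 hb
        have hmove : ∀ (g : Gen) (c d c' d' : Fin 3 → ℕ) (hc : c ∈ L) (hd : d ∈ L)
            (hc' : c' ∈ L) (hd' : d' ∈ L),
            (∀ i, GG g (i, c i) (i + g.2, c' (i + g.2))) →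
            (∀ i, GG g (i, d i) (i + g.2, d' (i + g.2))) →
            r ⟨c, (hL c).2 hc⟩ ⟨d, (hL d).2 hd⟩ → r ⟨c', (hL c').2 hc'⟩ ⟨d', (hL d').2 hd'⟩ := by
          intro g c d c' d' hc hd hc' hd' h1 h2 h
          obtain ⟨f, hf, hf'⟩ := key g
          exact hr f hf ⟨c, (hL c).2 hc⟩ ⟨d, (hL d).2 hd⟩ ⟨c', (hL c').2 hc'⟩
            ⟨d', (hL d').2 hd'⟩ (hf' c c' h1).symm (hf' d d' h2).symm h
        obtain ⟨g, e, he, h1, h2, h3⟩ := h4 a haL b hbL (fun h => hne (Subtype.ext h))
        have r1 := hmove g a b b e haL hbL hbL he h1 h2 hab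
        have r2 : r ⟨a, ha⟩ ⟨e, (hL e).2 he⟩ := r.trans hab r1
        have key2 : ∀ c ∈ cells ℕ, ∀ d ∈ cells ℕ, ∀ (hc : c ∈ cells ℕ) (hd : d ∈ cells ℕ),
            r ⟨c, hc⟩ ⟨d, hd⟩ := by
          intro c hc d hd _ _
          have hcL := (hL c).1 hc
          have hdL := (hL d).1 hd
          obtain ⟨g, g1, g2, a', ha', f, hf, m1, m2, m3, m4, m5, m6⟩ :=
            h5 a haL e he h3 c hcL d hdL
          have s1 : r ⟨a', (hL a').2 ha'⟩ ⟨e, (hL e).2 he⟩ :=
            hmove g a e a' e haL he ha' he m2 m1 r2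
          have s2 : r ⟨a, ha⟩ ⟨a', (hL a').2 ha'⟩ := r.trans r2 (r.symm s1)
          have s3 : r ⟨c, hc⟩ ⟨f, (hL f).2 hf⟩ := hmove g1 a a' c f haL ha' hcL hf m3 m4 s2
          have s4 : r ⟨d, hd⟩ ⟨f, (hL f).2 hf⟩ := hmove g2 a a' d f haL ha' hdL hf m5 m6 s2
          exact r.trans s3 (r.symm s4)
        ext c d
        exact ⟨fun _ => trivial, fun _ => key2 c.1 c.2 d.1 d.2 c.2 d.2⟩

end Pool.Agent.MPb62fd5.Generic
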