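import Pool.Agent.MPb62fd5.Bol

set_option autoImplicit false

namespace Pool.Agent.MPb62fd5

/-- exclusive or, by pattern matching -/
def x2 : Bool → Bool → Bool
  | true, b => !b
  | false, b => b

/-- Octonions over the field with two elements, as eight bits. -/
@[ext]
structure O8 where
  a : Bool
  u1 : Bool
  u2 : Bool
  u3 : Bool
  v1 : Bool
  v2 : Bool
  v3 : Bool
  b : Bool

namespace O8

/-- product -/
def mul (x y : O8) : O8 where
  a := x2 (x.a && y.a) (x2 (x.u1 && y.v1) (x2 (x.u2 && y.v2) (x.u3 && y.v3)))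
  u1 := x2 (x.a && y.u1) (x2 (y.b && x.u1) (x2 (x.v2 && y.v3) (x.v3 && y.v2)))
  u2 := x2 (x.a && y.u2) (x2 (y.b && x.u2) (x2 (x.v3 && y.v1) (x.v1 && y.v3)))
  u3 := x2 (x.a && y.u3) (x2 (y.b && x.u3) (x2 (x.v1 && y.v2) (x.v2 && y.v1)))
  v1 := x2 (y.a && x.v1) (x2 (x.b && y.v1) (x2 (x.u2 && y.u3) (x.u3 && y.u2)))
  v2 := x2 (y.a && x.v2) (x2 (x.b && y.v2) (x2 (x.u3 && y.u1) (x.u1 && y.u3)))
  v3 := x2 (y.a && x.v3) (x2 (x.b && y.v3) (x2 (x.u1 && y.u2) (x.u2 && y.u1)))
  b := x2 (x.b && y.b) (x2 (x.v1 && y.u1) (x2 (x.v2 && y.u2) (x.v3 && y.u3)))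

/-- norm -/
def norm (x : O8) : Bool := x2 (x.a && x.b) (x2 (x.u1 && x.v1) (x2 (x.u2 && x.v2) (x.u3 && x.v3)))

/-- conjugate -/
def conj (x : O8) : O8 := ⟨x.b, x.u1, x.u2, x.u3, x.v1, x.v2, x.v3, x.a⟩

/-- one -/
def one : O8 := ⟨true, false, false, false, false, false, false, true⟩

/-- Boolean equality -/
def eqb (x y : O8) : Bool :=
  !(x2 x.a y.a) && !(x2 x.u1 y.u1) && !(x2 x.u2 y.u2) && !(x2 x.u3 y.u3) &&
    !(x2 x.v1 y.v1) && !(x2 x.v2 y.v2) && !(x2 x.v3 y.v3) && !(x2 x.b y.b)

theorem eqb_iff (x y : O8) : eqb x y = true ↔ x = y := by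
  have h : ∀ a b : Bool, (!(x2 a b)) = true ↔ a = b := by decide
  unfold eqb
  rw [O8.ext_iff]
  simp only [Bool.and_eq_true, h]
  tauto

/-- force a Boolean -/
def fB {α : Type} (b : Bool) (k : Bool → α) : α := match b with
  | true => k true
  | false => k false

theorem fB_eq {α : Type} (b : Bool) (k : Bool → α) : fB b k = k b := by cases b <;> rfl

/-- force all bits of an octonion -/
def force {α : Type} (x : O8) (k : O8 → α) : α :=
  fB x.a fun a => fB x.u1 fun u1 => fB x.u2 fun u2 => fB x.u3 fun u3 =>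
  fB x.v1 fun v1 => fB x.v2 fun v2 => fB x.v3 fun v3 => fB x.b fun b =>
    k ⟨a, u1, u2, u3, v1, v2, v3, b⟩

theorem force_eq {α : Type} (x : O8) (k : O8 → α) : force x k = k x := by
  simp only [force, fB_eq]

/-- bounded quantifier -/
def allB (f : Bool → Bool) : Bool := f false && f true

theorem allB_spec {f : Bool → Bool} (h : allB f = true) (b : Bool) : f b = true := by
  unfold allB at h
  rw [Bool.and_eq_true] at h
  cases b
  · exact h.1
  · exact h.2

/-- quantifier over all octonions -/
def allO (P : O8 → Bool) : Bool :=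
  allB fun a => allB fun u1 => allB fun u2 => allB fun u3 =>
  allB fun v1 => allB fun v2 => allB fun v3 => allB fun b => P ⟨a, u1, u2, u3, v1, v2, v3, b⟩

theorem allO_spec {P : O8 → Bool} (h : allO P = true) (x : O8) : P x = true :=
  allB_spec (allB_spec (allB_spec (allB_spec (allB_spec (allB_spec (allB_spec (allB_spec h
    x.a) x.u1) x.u2) x.u3) x.v1) x.v2) x.v3) x.b

/-- `w x w⁻¹`, forced -/
def cj (w x : O8) : O8 := mul (mul w x) (conj w)

/-- the list of four conjugators -/
def W : List O8 :=
  [⟨true, false, false, true, true, true, true, false⟩,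
   ⟨false, true, true, true, true, false, false, true⟩,
   ⟨true, true, false, true, false, true, true, false⟩,
   ⟨true, true, false, false, true, true, true, false⟩]

/-- involution -/
def u0 : O8 := ⟨false, false, false, true, false, false, true, false⟩
/-- element of order three -/
def w0 : O8 := ⟨false, false, false, true, false, false, true, true⟩

/-- `x` can be conjugated to `t` by at most `n` conjugations -/
def reach (t : O8) : ℕ → O8 → Bool
  | 0, x => eqb x t
  | n + 1, x => eqb x t || W.any fun w => force (cj w x) fun y => reach t n y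

/-- the involutions -/
def is2 (x : O8) : Bool := norm x && !(eqb x one) && force (mul x x) fun y => eqb y one

/-- the elements of order three -/
def is3 (x : O8) : Bool := norm x && !(eqb x one) && force (mul x x) fun y => eqb y (conj x)

theorem reach2 : allO (fun x => !(is2 x) || reach u0 4 x) = true := by decide +kernel

theorem reach3 : allO (fun x => !(is3 x) || reach w0 4 x) = true := by decide +kernel

theorem trich : allO (fun x => !(norm x) || eqb x one || is2 x || is3 x) = true := by
  decide +kernel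

theorem W_is3 : W.all is3 = true := by decide +kernel

theorem u0_is2 : is2 u0 = true := by decide +kernel

theorem w0_is3 : is3 w0 = true := by decide +kernel

/-- auxiliary involution -/
def v0 : O8 := ⟨true, false, false, false, false, false, true, true⟩

/-- auxiliary element of order three -/
def y0 : O8 := ⟨false, false, true, false, false, true, true, true⟩

theorem v0_is2 : is2 v0 = true := by decide +kernel

theorem y0_is3 : is3 y0 = true := by decide +kernel

theorem v0_u0 : mul v0 u0 = w0 := by rw [← eqb_iff]; decide +kernel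

theorem v0_u0_y0 : is2 (mul v0 (mul u0 y0)) = true := by decide +kernel

theorem p_is3 : is3 (mul (conj w0) y0) = true := by decide +kernel

theorem p_q : eqb (cj (mul (conj w0) y0) (mul y0 (conj w0))) (mul y0 (conj w0)) = false := by
  decide +kernel

theorem fact5 : allO (fun y => !(norm y) || !(eqb (cj w0 y) y) || eqb y one || eqb y w0 ||
    eqb y (conj w0)) = true := by decide +kernel

theorem fact6 : allO (fun y => !(is2 y) || !(force (mul u0 y) is2) ||
    (force (mul y u0) fun v => is2 v &&
      force (mul u0 (cj w0 u0)) fun a => force (mul v a) fun b => force (mul b v) is3)) = true := by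
  decide +kernel

theorem fact7 : allO (fun x => !(norm x) || eqb x one ||
    W.any fun w => !(force (cj w x) fun y => eqb y x)) = true := by decide +kernel

/-! ### transfer of identities -/

/-- a bit as an element of `ZMod 2` -/
def bz (b : Bool) : ZMod 2 := if b then 1 else 0

theorem bz_inj {a b : Bool} (h : bz a = bz b) : a = b := by
  revert a b; decide

theorem bz_x2 (a b : Bool) : bz (x2 a b) = bz a + bz b := by revert a b; decide

theorem bz_and (a b : Bool) : bz (a && b) = bz a * bz b := by revert a b; decide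

/-- the octonion as a vector matrix -/
def toZ (x : O8) : Zorn (ZMod 2) :=
  ⟨bz x.a, ![bz x.u1, bz x.u2, bz x.u3], ![bz x.v1, bz x.v2, bz x.v3], bz x.b⟩

theorem toZ_inj {x y : O8} (h : toZ x = toZ y) : x = y := by
  have h1 : bz x.a = bz y.a := congrArg Zorn.a h
  have h2 := congrArg Zorn.u h
  have h3 := congrArg Zorn.v h
  have h4 : bz x.b = bz y.b := congrArg Zorn.b h
  ext
  · rw [bz_inj h1]
  · rw [bz_inj (show bz x.u1 = bz y.u1 from congrFun h2 0)]
  · rw [bz_inj (show bz x.u2 = bz y.u2 from congrFun h2 1)]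
  · rw [bz_inj (show bz x.u3 = bz y.u3 from congrFun h2 2)]
  · rw [bz_inj (show bz x.v1 = bz y.v1 from congrFun h3 0)]
  · rw [bz_inj (show bz x.v2 = bz y.v2 from congrFun h3 1)]
  · rw [bz_inj (show bz x.v3 = bz y.v3 from congrFun h3 2)]
  · rw [bz_inj h4]

theorem toZ_mul (x y : O8) : toZ (mul x y) = Zorn.mul (toZ x) (toZ y) := by
  ext i
  · simp [toZ, mul, Zorn.mul, bz_x2, bz_and, dotProduct, Fin.sum_univ_three]; ring
  · fin_cases i <;> simp [toZ, mul, Zorn.mul, bz_x2, bz_and, cross_apply, CharTwo.sub_eq_add] <;>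
      ring
  · fin_cases i <;> simp [toZ, mul, Zorn.mul, bz_x2, bz_and, cross_apply, CharTwo.sub_eq_add] <;>
      ring
  · simp [toZ, mul, Zorn.mul, bz_x2, bz_and, dotProduct, Fin.sum_univ_three]; ring

theorem toZ_conj (x : O8) : toZ (conj x) = Zorn.conj (toZ x) := by
  ext i
  · simp [toZ, conj, Zorn.conj]
  · fin_cases i <;> simp [toZ, conj, Zorn.conj]
  · fin_cases i <;> simp [toZ, conj, Zorn.conj]
  · simp [toZ, conj, Zorn.conj]

theorem bz_norm (x : O8) : bz (norm x) = Zorn.norm (toZ x) := by
  simp [toZ, norm, Zorn.norm, bz_x2, bz_and, dotProduct, Fin.sum_univ_three,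
    CharTwo.sub_eq_add]; ring

theorem norm_toZ {x : O8} (h : norm x = true) : Zorn.norm (toZ x) = 1 := by
  rw [← bz_norm, h]; rfl

theorem norm_mul {x y : O8} (hx : norm x = true) (hy : norm y = true) :
    norm (mul x y) = true := by
  apply bz_inj
  rw [bz_norm, toZ_mul, Zorn.norm_mul, norm_toZ hx, norm_toZ hy]; rfl

theorem norm_conj {x : O8} (hx : norm x = true) : norm (conj x) = true := by
  apply bz_inj
  rw [bz_norm, toZ_conj, Zorn.norm_conj, norm_toZ hx]; rfl

end O8

end Pool.Agent.MPb62fd5
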